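import Mathlib

set_option autoImplicit false

/-!
# A continuous function of unbounded variation on every interval
-/

open Set Filter Topology
open scoped ENNReal NNReal

namespace Pool.Agent.U327.Wild

noncomputable section

/-- the summand -/
def term (k : ℕ) (x : ℝ) : ℝ := (1 / 2) ^ k * Real.cos (Real.pi * 16 ^ k * x)

/-- the function -/
def B (x : ℝ) : ℝ := ∑' k : ℕ, term k x

lemma summable_bd : Summable (fun k : ℕ => ((1 / 2 : ℝ)) ^ k) :=
  summable_geometric_of_lt_one (by norm_num) (by norm_num)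

lemma term_le (k : ℕ) (x : ℝ) : ‖term k x‖ ≤ (1 / 2) ^ k := by
  unfold term
  rw [norm_mul, norm_pow, Real.norm_eq_abs, Real.norm_eq_abs, abs_of_pos (by norm_num : (0:ℝ) < 1/2)]
  calc (1 / 2 : ℝ) ^ k * |Real.cos (Real.pi * 16 ^ k * x)| ≤ (1 / 2) ^ k * 1 := by
        gcongr
        exact Real.abs_cos_le_one _
    _ = (1 / 2) ^ k := mul_one _

lemma summable_term (x : ℝ) : Summable (fun k => term k x) :=
  Summable.of_norm_bounded summable_bd (fun k => term_le k x)

lemma continuous_B : Continuous B := by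
  refine continuous_tsum (fun k => ?_) summable_bd term_le
  unfold term
  fun_prop

lemma B_neg (x : ℝ) : B (-x) = B x := by
  unfold B term
  congr 1
  ext k
  rw [mul_neg, Real.cos_neg]

/-- The increments at scale `16^(-k)`. -/
lemma increment (k : ℕ) (j : ℤ) :
    (1 / 2 : ℝ) ^ k ≤ |B ((j + 1 : ℤ) / 16 ^ k) - B ((j : ℤ) / 16 ^ k)| := by
  set x : ℝ := (j : ℝ) / 16 ^ k with hx
  set y : ℝ := ((j + 1 : ℤ) : ℝ) / 16 ^ k with hy
  have h16 : (0 : ℝ) < 16 ^ k := by positivity
  have hxy : y - x = 1 / 16 ^ k := by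
    rw [hx, hy]; push_cast; ring
  -- tail terms agree
  have htail : ∀ i, k < i → term i y - term i x = 0 := by
    intro i hi
    obtain ⟨m, rfl⟩ : ∃ m, i = k + 1 + m := ⟨i - (k + 1), by omega⟩
    have h1 : ∀ l : ℤ, Real.cos (Real.pi * 16 ^ (k + 1 + m) * ((l : ℝ) / 16 ^ k)) = 1 := by
      intro l
      have h2 : Real.pi * 16 ^ (k + 1 + m) * ((l : ℝ) / 16 ^ k)
          = ((8 * 16 ^ m * l : ℤ) : ℝ) * (2 * Real.pi) := by
        push_cast
        field_simp
        ring
      rw [h2, Real.cos_int_mul_two_pi]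
    unfold term
    rw [hx, hy, h1, h1, sub_self]
  have hmain : B y - B x = ∑ i ∈ Finset.range (k + 1), (term i y - term i x) := by
    unfold B
    rw [← Summable.tsum_sub (summable_term y) (summable_term x)]
    apply tsum_eq_sum
    intro i hi
    apply htail
    rw [Finset.mem_range] at hi
    omega
  rw [hmain, Finset.sum_range_succ]
  have hk : |term k y - term k x| = 2 * (1 / 2) ^ k := by
    have h3 : ∀ l : ℤ, Real.cos (Real.pi * 16 ^ k * ((l : ℝ) / 16 ^ k)) = (-1) ^ l := by
      intro l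
      have : Real.pi * 16 ^ k * ((l : ℝ) / 16 ^ k) = (l : ℝ) * Real.pi := by
        field_simp
      rw [this, Real.cos_int_mul_pi]
    unfold term
    rw [hx, hy, h3, h3, zpow_add₀ (by norm_num), zpow_one]
    have h4 : (-1 : ℝ) ^ j = 1 ∨ (-1 : ℝ) ^ j = -1 := by
      rcases Int.even_or_odd j with h | h
      · left; exact h.neg_one_zpow
      · right; exact h.neg_one_zpow
    have h5 : (0 : ℝ) < (1 / 2) ^ k := by positivity
    rcases h4 with h | h
    · rw [h]
      have : (1 / 2 : ℝ) ^ k * (1 * -1) - (1 / 2) ^ k * 1 = -(2 * (1 / 2) ^ k) := by ring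
      rw [this, abs_neg, abs_of_pos (by positivity)]
    · rw [h]
      have : (1 / 2 : ℝ) ^ k * (-1 * -1) - (1 / 2) ^ k * -1 = (2 * (1 / 2) ^ k) := by ring
      rw [this, abs_of_pos (by positivity)]
  have hlow : |∑ i ∈ Finset.range k, (term i y - term i x)| ≤ (1 / 2) ^ k := by
    calc |∑ i ∈ Finset.range k, (term i y - term i x)|
        ≤ ∑ i ∈ Finset.range k, |term i y - term i x| := Finset.abs_sum_le_sum_abs _ _
      _ ≤ ∑ i ∈ Finset.range k, Real.pi * 8 ^ i / 16 ^ k := by
          apply Finset.sum_le_sum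
          intro i _
          unfold term
          rw [← mul_sub, abs_mul, abs_of_pos (by positivity : (0 : ℝ) < (1 / 2) ^ i)]
          have h6 := Real.abs_cos_sub_cos_le (Real.pi * 16 ^ i * y) (Real.pi * 16 ^ i * x)
          have h7 : |Real.pi * 16 ^ i * y - Real.pi * 16 ^ i * x| = Real.pi * 16 ^ i / 16 ^ k := by
            rw [← mul_sub, hxy, abs_of_pos (by positivity)]
            ring
          rw [h7] at h6
          calc (1 / 2 : ℝ) ^ i * |Real.cos (Real.pi * 16 ^ i * y) - Real.cos (Real.pi * 16 ^ i * x)|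
              ≤ (1 / 2) ^ i * (Real.pi * 16 ^ i / 16 ^ k) := by gcongr
            _ = Real.pi * 8 ^ i / 16 ^ k := by
                have : (16 : ℝ) ^ i = 2 ^ i * 8 ^ i := by
                  rw [← mul_pow]; norm_num
                rw [this]
                have h2 : ((1 / 2 : ℝ)) ^ i * 2 ^ i = 1 := by
                  rw [← mul_pow]; norm_num
                calc (1 / 2 : ℝ) ^ i * (Real.pi * (2 ^ i * 8 ^ i) / 16 ^ k)
                    = ((1 / 2 : ℝ) ^ i * 2 ^ i) * (Real.pi * 8 ^ i / 16 ^ k) := by ring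
                  _ = _ := by rw [h2, one_mul]
      _ = Real.pi / 16 ^ k * ∑ i ∈ Finset.range k, (8 : ℝ) ^ i := by
          rw [Finset.mul_sum]
          apply Finset.sum_congr rfl
          intro i _
          ring
      _ = Real.pi / 16 ^ k * ((8 ^ k - 1) / (8 - 1)) := by rw [geom_sum_eq (by norm_num)]
      _ ≤ 7 / 16 ^ k * ((8 ^ k) / (8 - 1)) := by
          have h8 : Real.pi ≤ 7 := by linarith [Real.pi_lt_four]
          have h9 : (1 : ℝ) ≤ 8 ^ k := one_le_pow₀ (by norm_num)
          gcongr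
          linarith
      _ = (1 / 2) ^ k := by
          have : (16 : ℝ) ^ k = 2 ^ k * 8 ^ k := by
            rw [← mul_pow]; norm_num
          rw [this, div_pow, one_pow]
          field_simp
          norm_num
  have h10 := abs_sub_abs_le_abs_sub (term k y - term k x)
    (-(∑ i ∈ Finset.range k, (term i y - term i x)))
  rw [abs_neg, hk, sub_neg_eq_add] at h10
  rw [add_comm (term k y - term k x)] at h10
  linarith

/-- `B` has unbounded variation on every interval. -/
lemma not_bv {c d : ℝ} (hcd : c < d) : ¬ BoundedVariationOn B (Icc c d) := by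
  intro hbv
  set V : ℝ := (eVariationOn B (Icc c d)).toReal with hV
  have key : ∀ k : ℕ, ((16 : ℝ) ^ k * (d - c) - 2) * (1 / 2) ^ k ≤ V := by
    intro k
    set j0 : ℤ := ⌈(16 : ℝ) ^ k * c⌉ with hj0
    set j1 : ℤ := ⌊(16 : ℝ) ^ k * d⌋ with hj1
    have h16 : (0 : ℝ) < 16 ^ k := by positivity
    have h1 : (16 : ℝ) ^ k * c ≤ j0 := Int.le_ceil _
    have h2 : (j0 : ℝ) < 16 ^ k * c + 1 := Int.ceil_lt_add_one _
    have h3 : (j1 : ℝ) ≤ 16 ^ k * d := Int.floor_le _
    have h4 : (16 : ℝ) ^ k * d < j1 + 1 := Int.lt_floor_add_one _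
    rcases lt_or_ge j1 j0 with h | h
    · have h5 : (j1 : ℝ) + 1 ≤ j0 := by exact_mod_cast h
      have h6 : (16 : ℝ) ^ k * (d - c) - 2 ≤ 0 := by nlinarith
      have h7 : ((16 : ℝ) ^ k * (d - c) - 2) * (1 / 2) ^ k ≤ 0 :=
        mul_nonpos_of_nonpos_of_nonneg h6 (by positivity)
      exact h7.trans ENNReal.toReal_nonneg
    · obtain ⟨N, hN⟩ := Int.eq_ofNat_of_zero_le (sub_nonneg.2 h)
      let u : ℕ → ℝ := fun i => ((j0 + i : ℤ) : ℝ) / 16 ^ k
      have hu : MonotoneOn u (Iic N) := by
        intro i _ j _ hij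
        simp only [u]
        gcongr
      have hus : ∀ i ≤ N, u i ∈ Icc c d := by
        intro i hi
        simp only [u]
        constructor
        · rw [le_div_iff₀ h16]
          push_cast
          have : (0 : ℝ) ≤ i := by positivity
          linarith
        · rw [div_le_iff₀ h16]
          have h8 : (j0 + i : ℤ) ≤ j1 := by omega
          have h9 : ((j0 + i : ℤ) : ℝ) ≤ j1 := by exact_mod_cast h8
          linarith
      have h5 := eVariationOn.sum_le_of_monotoneOn_Iic (f := B) (s := Icc c d) hu hus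
      have h6 : ∀ i ∈ Finset.range N, ENNReal.ofReal ((1 / 2) ^ k) ≤ edist (B (u (i + 1))) (B (u i)) := by
        intro i _
        rw [edist_dist, Real.dist_eq]
        apply ENNReal.ofReal_le_ofReal
        have := increment k (j0 + i)
        simp only [u]
        push_cast at this ⊢
        rw [add_assoc] at this
        exact this
      have h7 : (N : ℝ≥0∞) * ENNReal.ofReal ((1 / 2) ^ k) ≤ eVariationOn B (Icc c d) := by
        refine le_trans ?_ h5
        have := Finset.sum_le_sum h6
        simpa using this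
      have h8 : (N : ℝ) * (1 / 2) ^ k ≤ V := by
        rw [hV]
        have h9 := ENNReal.toReal_mono hbv h7
        rw [ENNReal.toReal_mul, ENNReal.toReal_natCast, ENNReal.toReal_ofReal (by positivity)] at h9
        exact h9
      have h9 : ((j1 : ℝ) - j0) = N := by exact_mod_cast hN
      refine le_trans ?_ h8
      have h10 : (16 : ℝ) ^ k * (d - c) - 2 ≤ N := by
        rw [← h9]; nlinarith
      gcongr
  have h8 : ∀ k : ℕ, (8 : ℝ) ^ k * (d - c) - 2 ≤ V := by
    intro k
    have h := key k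
    have h2 : ((16 : ℝ) ^ k * (d - c) - 2) * (1 / 2) ^ k = 8 ^ k * (d - c) - 2 * (1 / 2) ^ k := by
      have : (16 : ℝ) ^ k = 2 ^ k * 8 ^ k := by
        rw [← mul_pow]; norm_num
      rw [this]
      have h2 : ((1 / 2 : ℝ)) ^ k * 2 ^ k = 1 := by
        rw [← mul_pow]; norm_num
      calc ((2 : ℝ) ^ k * 8 ^ k * (d - c) - 2) * (1 / 2) ^ k
          = ((1 / 2 : ℝ) ^ k * 2 ^ k) * (8 ^ k * (d - c)) - 2 * (1 / 2) ^ k := by ring
        _ = _ := by rw [h2, one_mul]
    rw [h2] at h
    have h3 : ((1 / 2 : ℝ)) ^ k ≤ 1 := pow_le_one₀ (by norm_num) (by norm_num)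
    linarith
  have hdc : 0 < d - c := sub_pos.2 hcd
  obtain ⟨k, hk⟩ := pow_unbounded_of_one_lt ((V + 2) / (d - c)) (by norm_num : (1 : ℝ) < 8)
  rw [div_lt_iff₀ hdc] at hk
  linarith [h8 k]

/-- A monotone section of a continuous function. -/
lemma exists_section {x : ℝ → ℝ} {s t : ℝ} (hst : s ≤ t) (hx : ContinuousOn x (Icc s t)) :
    ∃ τ : ℝ → ℝ, MonotoneOn τ (Icc (x s) (x t)) ∧ MapsTo τ (Icc (x s) (x t)) (Icc s t) ∧
      ∀ u ∈ Icc (x s) (x t), x (τ u) = u := by
  have hleast : ∀ u ∈ Icc (x s) (x t), ∃ r, IsLeast (Icc s t ∩ x ⁻¹' (Ici u)) r := by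
    intro u hu
    have hc : IsCompact (Icc s t ∩ x ⁻¹' (Ici u)) := by
      have : IsClosed (Icc s t ∩ x ⁻¹' (Ici u)) := hx.preimage_isClosed_of_isClosed isClosed_Icc isClosed_Ici
      exact isCompact_Icc.of_isClosed_subset this inter_subset_left
    exact hc.exists_isLeast ⟨t, right_mem_Icc.2 hst, hu.2⟩
  choose! τ hτ using hleast
  refine ⟨τ, ?_, ?_, ?_⟩
  · intro u hu v hv huv
    apply (hτ u hu).2
    exact ⟨(hτ v hv).1.1, le_trans huv (hτ v hv).1.2⟩
  · intro u hu
    exact (hτ u hu).1.1
  · intro u hu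
    obtain ⟨⟨h1, h2⟩, h3⟩ := hτ u hu
    apply le_antisymm _ h2
    have hsub : Icc s (τ u) ⊆ Icc s t := Icc_subset_Icc_right h1.2
    have hivt := intermediate_value_Icc h1.1 (hx.mono hsub)
    obtain ⟨r, hr, hxr⟩ := hivt ⟨hu.1, h2⟩
    have h4 : τ u ≤ r := h3 ⟨hsub hr, by rw [mem_preimage, hxr]; exact self_mem_Ici⟩
    have h5 : r = τ u := le_antisymm hr.2 h4
    rw [← h5, hxr]

/-- If `B ∘ x` has bounded variation, then the continuous function `x` is constant. -/
lemma const_of_bv {x : ℝ → ℝ} {a b : ℝ} (hx : ContinuousOn x (Icc a b))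
    (hbv : BoundedVariationOn (fun t => B (x t)) (Icc a b)) :
    ∀ s ∈ Icc a b, ∀ t ∈ Icc a b, x s = x t := by
  have main : ∀ (x : ℝ → ℝ), ContinuousOn x (Icc a b) →
      BoundedVariationOn (fun t => B (x t)) (Icc a b) →
      ∀ s ∈ Icc a b, ∀ t ∈ Icc a b, s ≤ t → x t ≤ x s := by
    intro x hx hbv s hs t ht hst
    by_contra hcon
    push Not at hcon
    have hsub : Icc s t ⊆ Icc a b := Icc_subset_Icc hs.1 ht.2
    obtain ⟨τ, h1, h2, h3⟩ := exists_section hst (hx.mono hsub)
    have h4 := eVariationOn.comp_le_of_monotoneOn (fun t => B (x t)) τ h1 h2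
    have h5 : eVariationOn B (Icc (x s) (x t)) = eVariationOn ((fun t => B (x t)) ∘ τ) (Icc (x s) (x t)) := by
      apply eVariationOn.congr
      intro u hu
      simp only [Function.comp_apply, h3 u hu]
    have h6 : BoundedVariationOn B (Icc (x s) (x t)) := by
      intro htop
      rw [h5] at htop
      rw [htop, top_le_iff] at h4
      have h7 := eVariationOn.mono (fun t => B (x t)) hsub
      rw [h4, top_le_iff] at h7
      exact hbv h7
    exact not_bv hcon h6
  have key : ∀ s ∈ Icc a b, ∀ t ∈ Icc a b, s ≤ t → x s = x t := by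
    intro s hs t ht hst
    apply le_antisymm
    · have h1 := main (fun t => - x t) hx.neg (by simpa only [B_neg] using hbv) s hs t ht hst
      simpa using h1
    · exact main x hx hbv s hs t ht hst
  intro s hs t ht
  rcases le_total s t with h | h
  · exact key s hs t ht h
  · exact (key t ht s hs h).symm

/-- Difference of functions of bounded variation. -/
lemma bv_sub {f g : ℝ → ℝ} {S : Set ℝ} (hf : BoundedVariationOn f S) (hg : BoundedVariationOn g S) :
    BoundedVariationOn (fun t => f t - g t) S := by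
  have h : eVariationOn (fun t => f t - g t) S ≤ eVariationOn f S + eVariationOn g S := by
    apply iSup_le
    rintro ⟨n, u, hu, hus⟩
    calc ∑ i ∈ Finset.range n, edist (f (u (i + 1)) - g (u (i + 1))) (f (u i) - g (u i))
        ≤ ∑ i ∈ Finset.range n, (edist (f (u (i + 1))) (f (u i)) + edist (g (u (i + 1))) (g (u i))) := by
          apply Finset.sum_le_sum
          intro i _
          have h1 := edist_triangle (f (u (i + 1)) - g (u (i + 1))) (f (u i) - g (u (i + 1))) (f (u i) - g (u i))
          have h2 : edist (f (u (i + 1)) - g (u (i + 1))) (f (u i) - g (u (i + 1)))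
              = edist (f (u (i + 1))) (f (u i)) := edist_sub_right _ _ _
          have h3 : edist (f (u i) - g (u (i + 1))) (f (u i) - g (u i))
              = edist (g (u (i + 1))) (g (u i)) := edist_sub_left _ _ _
          rw [h2, h3] at h1
          exact h1
      _ = _ := Finset.sum_add_distrib
      _ ≤ _ := add_le_add (eVariationOn.sum_le hu hus) (eVariationOn.sum_le hu hus)
  exact ne_top_of_le_ne_top (ENNReal.add_ne_top.2 ⟨hf, hg⟩) h

end

end Pool.Agent.U327.Wild
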