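import Mathlib
import Pool.Agent.U327.Wild

set_option autoImplicit false

/-!
# Embeddings that make all rectifiable curves infinitely long
-/

open Set Filter Topology MeasureTheory
open scoped ENNReal NNReal

namespace Pool.Agent.U327.Sponge

open Pool.Agent.U327.Wild

noncomputable section

/-- Euclidean space -/
abbrev E (n : ℕ) : Type := EuclideanSpace ℝ (Fin n)

/-- The shear map of `ℝ^(m+2)`. -/
def F (m : ℕ) (x : Fin (m + 2) → ℝ) : Fin (m + 2) → ℝ :=
  Fin.cons (x 0 + B (x (Fin.last (m + 1)) + B (x (Fin.last m).castSucc)))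
    (fun i : Fin (m + 1) => x i.succ + B (x i.castSucc))

lemma F_zero (m : ℕ) (x : Fin (m + 2) → ℝ) :
    F m x 0 = x 0 + B (F m x (Fin.last (m + 1))) := by
  have h : F m x (Fin.last (m + 1)) = x (Fin.last (m + 1)) + B (x (Fin.last m).castSucc) := by
    rw [← Fin.succ_last]
    simp [F]
  rw [h]
  simp [F]

lemma F_succ (m : ℕ) (x : Fin (m + 2) → ℝ) (i : Fin (m + 1)) :
    F m x i.succ = x i.succ + B (x i.castSucc) := by
  simp [F]

lemma continuous_F (m : ℕ) : Continuous (F m) := by
  apply continuous_pi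
  intro i
  have hB := continuous_B
  refine Fin.cases ?_ (fun i => ?_) i
  · simp only [F, Fin.cons_zero]
    fun_prop
  · simp only [F, Fin.cons_succ]
    fun_prop

/-- recover convergence from convergence of the images -/
lemma inducing_F (m : ℕ) : IsInducing (F m) := by
  rw [isInducing_iff_nhds]
  intro x
  apply le_antisymm
  · exact (continuous_F m).continuousAt.le_comap
  · set l := comap (F m) (𝓝 (F m x)) with hl
    have hz : ∀ i, Tendsto (fun x' => F m x' i) l (𝓝 (F m x i)) := by
      intro i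
      have h1 : Tendsto (F m) l (𝓝 (F m x)) := tendsto_comap
      exact (tendsto_pi_nhds.1 h1) i
    have hB := continuous_B
    have key : ∀ i : Fin (m + 2), Tendsto (fun x' : Fin (m + 2) → ℝ => x' i) l (𝓝 (x i)) := by
      intro i
      induction i using Fin.induction with
      | zero =>
        have h1 : Tendsto (fun x' => F m x' 0 - B (F m x' (Fin.last (m + 1)))) l
            (𝓝 (F m x 0 - B (F m x (Fin.last (m + 1))))) :=
          (hz 0).sub ((hB.tendsto _).comp (hz _))
        simpa only [F_zero, add_sub_cancel_right] using h1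
      | succ i ih =>
        have h1 : Tendsto (fun x' => F m x' i.succ - B (x' i.castSucc)) l
            (𝓝 (F m x i.succ - B (x i.castSucc))) :=
          (hz i.succ).sub ((hB.tendsto _).comp ih)
        simpa only [F_succ, add_sub_cancel_right] using h1
    have h2 : Tendsto id l (𝓝 x) := tendsto_pi_nhds.2 key
    exact tendsto_id'.1 h2

/-- a curve of bounded variation whose image under `F` has bounded variation is constant -/
lemma const_of_bv_F (m : ℕ) {γ : ℝ → Fin (m + 2) → ℝ} {a b : ℝ}
    (hc : ContinuousOn γ (Icc a b))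
    (h1 : ∀ i, BoundedVariationOn (fun t => γ t i) (Icc a b))
    (h2 : ∀ i, BoundedVariationOn (fun t => F m (γ t) i) (Icc a b)) :
    ∀ s ∈ Icc a b, ∀ t ∈ Icc a b, γ s = γ t := by
  have hci : ∀ i, ContinuousOn (fun t => γ t i) (Icc a b) := fun i =>
    (continuous_apply i).comp_continuousOn hc
  have h3 : ∀ i : Fin (m + 1), ∀ s ∈ Icc a b, ∀ t ∈ Icc a b, γ s i.castSucc = γ t i.castSucc := by
    intro i
    apply const_of_bv (x := fun t => γ t i.castSucc) (hci _)
    have := bv_sub (h2 i.succ) (h1 i.succ)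
    simpa only [F_succ, add_sub_cancel_left] using this
  have h4 : ∀ s ∈ Icc a b, ∀ t ∈ Icc a b,
      F m (γ s) (Fin.last (m + 1)) = F m (γ t) (Fin.last (m + 1)) := by
    apply const_of_bv (x := fun t => F m (γ t) (Fin.last (m + 1)))
    · exact ((continuous_apply (Fin.last (m + 1))).comp (continuous_F m)).comp_continuousOn hc
    · have := bv_sub (h2 0) (h1 0)
      simpa only [F_zero, add_sub_cancel_left] using this
  intro s hs t ht
  ext i
  refine Fin.lastCases ?_ (fun i => ?_) i
  · have h5 := h4 s hs t ht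
    rw [← Fin.succ_last, F_succ, F_succ, h3 (Fin.last m) s hs t ht] at h5
    rw [← Fin.succ_last]
    linarith
  · exact h3 i s hs t ht

lemma arctan_lower {R u v : ℝ} (hu : u ∈ Icc (-R) R) (hv : v ∈ Icc (-R) R) :
    |u - v| ≤ (1 + R ^ 2) * |Real.arctan u - Real.arctan v| := by
  have hmono : MonotoneOn (fun t : ℝ => (1 + R ^ 2) * Real.arctan t - t) (Icc (-R) R) := by
    apply monotoneOn_of_deriv_nonneg (convex_Icc _ _)
    · exact ((Real.continuous_arctan.const_mul _).sub continuous_id).continuousOn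
    · intro t _
      exact (((Real.hasDerivAt_arctan t).const_mul _).sub (hasDerivAt_id t)).differentiableAt.differentiableWithinAt
    · intro t ht
      rw [interior_Icc] at ht
      have h1 : HasDerivAt (fun t : ℝ => (1 + R ^ 2) * Real.arctan t - t)
          ((1 + R ^ 2) * (1 / (1 + t ^ 2)) - 1) t :=
        ((Real.hasDerivAt_arctan t).const_mul _).sub (hasDerivAt_id t)
      rw [h1.deriv]
      have h2 : t ^ 2 ≤ R ^ 2 := by
        apply sq_le_sq'
        · exact ht.1.le
        · exact ht.2.le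
      rw [mul_one_div, sub_nonneg, le_div_iff₀ (by positivity)]
      linarith
  have key : ∀ u ∈ Icc (-R) R, ∀ v ∈ Icc (-R) R, u ≤ v →
      |u - v| ≤ (1 + R ^ 2) * |Real.arctan u - Real.arctan v| := by
    intro u hu v hv huv
    have h1 := hmono hu hv huv
    simp only at h1
    have h2 : Real.arctan u ≤ Real.arctan v := Real.arctan_mono huv
    rw [abs_sub_comm, abs_of_nonneg (sub_nonneg.2 huv), abs_sub_comm, abs_of_nonneg (sub_nonneg.2 h2)]
    linarith
  rcases le_total u v with h | h
  · exact key u hu v hv h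
  · rw [abs_sub_comm u v, abs_sub_comm (Real.arctan u)]
    exact key v hv u hu h

/-- the squeezing function -/
def ψ (m : ℕ) (s : ℝ) : ℝ := Real.arctan s / (2 * (m + 2))

lemma ψ_bound (m : ℕ) (s : ℝ) : |ψ m s| ≤ 1 / (m + 2) := by
  unfold ψ
  have h0 : (0 : ℝ) < m + 2 := by positivity
  rw [abs_div, abs_of_pos (by positivity : (0 : ℝ) < 2 * (m + 2)), div_le_div_iff₀ (by positivity) h0]
  have h1 : |Real.arctan s| ≤ 2 := by
    rw [abs_le]
    constructor
    · linarith [Real.neg_pi_div_two_lt_arctan s, Real.pi_le_four]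
    · linarith [Real.arctan_lt_pi_div_two s, Real.pi_le_four]
  nlinarith

lemma tan_ψ (m : ℕ) (s : ℝ) : Real.tan ((2 * (m + 2)) * ψ m s) = s := by
  unfold ψ
  have h0 : (0 : ℝ) < m + 2 := by positivity
  rw [mul_div_cancel₀ _ (by positivity), Real.tan_arctan]

/-- the embedding of `ℝ^(m+2)` -/
def G (m : ℕ) (x : E (m + 2)) : E (m + 2) := WithLp.toLp 2 (fun i => ψ m (F m x.ofLp i))

lemma continuous_ψ (m : ℕ) : Continuous (ψ m) := by
  unfold ψ
  exact Real.continuous_arctan.div_const _

lemma continuous_G (m : ℕ) : Continuous (G m) := by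
  unfold G
  apply (PiLp.continuous_toLp 2 _).comp
  apply continuous_pi
  intro i
  exact (continuous_ψ m).comp (((continuous_apply i).comp (continuous_F m)).comp (PiLp.continuous_ofLp 2 _))

lemma inducing_G (m : ℕ) : IsInducing (G m) := by
  rw [isInducing_iff_nhds]
  intro x
  apply le_antisymm
  · exact (continuous_G m).continuousAt.le_comap
  · set l := comap (G m) (𝓝 (G m x)) with hl
    have h1 : Tendsto (G m) l (𝓝 (G m x)) := tendsto_comap
    have h2 : ∀ i, Tendsto (fun x' => ψ m (F m x'.ofLp i)) l (𝓝 (ψ m (F m x.ofLp i))) := by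
      intro i
      have h3 := ((PiLp.continuous_ofLp 2 (fun _ : Fin (m + 2) => ℝ)).tendsto _).comp h1
      exact (tendsto_pi_nhds.1 h3) i
    have h4 : ∀ i, Tendsto (fun x' : E (m + 2) => F m x'.ofLp i) l (𝓝 (F m x.ofLp i)) := by
      intro i
      have h5 : ContinuousAt Real.tan ((2 * (m + 2)) * ψ m (F m x.ofLp i)) := by
        rw [Real.continuousAt_tan]
        unfold ψ
        rw [mul_div_cancel₀ _ (by positivity)]
        exact (Real.cos_arctan_pos _).ne'
      have h6 := (h5.tendsto).comp ((h2 i).const_mul (2 * ((m : ℝ) + 2)))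
      simpa only [Function.comp_def, tan_ψ] using h6
    have h7 : Tendsto (fun x' : E (m + 2) => F m x'.ofLp) l (𝓝 (F m x.ofLp)) := tendsto_pi_nhds.2 h4
    have h8 : Tendsto (fun x' : E (m + 2) => x'.ofLp) l (𝓝 x.ofLp) := by
      rw [(inducing_F m).nhds_eq_comap, tendsto_comap_iff]
      exact h7
    have h9 : Tendsto id l (𝓝 x) := by
      have := ((PiLp.continuous_toLp 2 (fun _ : Fin (m + 2) => ℝ)).tendsto _).comp h8
      exact this
    exact tendsto_id'.1 h9

lemma embedding_G (m : ℕ) : IsEmbedding (G m) := ⟨inducing_G m, (inducing_G m).injective⟩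

lemma norm_G (m : ℕ) (x : E (m + 2)) : ‖G m x‖ ≤ 1 := by
  rw [EuclideanSpace.norm_eq]
  apply Real.sqrt_le_one.2
  have h1 : ∀ i ∈ (Finset.univ : Finset (Fin (m + 2))), ‖(G m x) i‖ ^ 2 ≤ (1 / (m + 2 : ℝ)) := by
    intro i _
    have h2 : ‖(G m x) i‖ ≤ 1 / (m + 2) := ψ_bound m _
    have h3 : (1 / (m + 2 : ℝ)) ≤ 1 := by
      rw [div_le_one (by positivity)]
      linarith [Nat.cast_nonneg (α := ℝ) m]
    have h4 : 0 ≤ ‖(G m x) i‖ := norm_nonneg _
    calc ‖(G m x) i‖ ^ 2 = ‖(G m x) i‖ * ‖(G m x) i‖ := by ring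
      _ ≤ (1 / (m + 2 : ℝ)) * 1 := by gcongr; exact h2.trans h3
      _ = _ := mul_one _
  have h5 := Finset.sum_le_sum h1
  refine h5.trans ?_
  rw [Finset.sum_const, Finset.card_univ, Fintype.card_fin, nsmul_eq_mul]
  push_cast
  rw [mul_one_div, div_self (by positivity)]

/-- The length of a curve parametrised by `[a, b]`. -/
def length {X : Type*} [PseudoEMetricSpace X] (γ : ℝ → X) (a b : ℝ) : ℝ≥0∞ := eVariationOn γ (Icc a b)

lemma bv_coord {n : ℕ} {γ : ℝ → E n} {a b : ℝ} (h : BoundedVariationOn γ (Icc a b)) (i : Fin n) :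
    BoundedVariationOn (fun t => (γ t) i) (Icc a b) := by
  have h1 : LipschitzWith 1 (fun x : E n => x i) := by
    apply LipschitzWith.of_dist_le_mul
    intro x y
    rw [NNReal.coe_one, one_mul, Real.dist_eq, dist_eq_norm]
    have := PiLp.norm_apply_le (x - y) i
    simpa using this
  exact h1.comp_boundedVariationOn h

/-- Any nonconstant rectifiable curve has an image of infinite length. -/
lemma length_G (m : ℕ) {γ : ℝ → E (m + 2)} {a b : ℝ} (hc : ContinuousOn γ (Icc a b))
    (h1 : length γ a b ≠ ⊤) (h2 : ∃ s ∈ Icc a b, ∃ t ∈ Icc a b, γ s ≠ γ t) :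
    length (fun t => G m (γ t)) a b = ⊤ := by
  by_contra hcon
  have hbv : BoundedVariationOn γ (Icc a b) := h1
  have hbv2 : BoundedVariationOn (fun t => G m (γ t)) (Icc a b) := hcon
  obtain ⟨s, hs, t, ht, hst⟩ := h2
  apply hst
  have hcc : ContinuousOn (fun t => (γ t).ofLp) (Icc a b) :=
    (PiLp.continuous_ofLp 2 _).comp_continuousOn hc
  have h3 : ∀ i, BoundedVariationOn (fun t => F m (γ t).ofLp i) (Icc a b) := by
    intro i
    -- `F` is bounded on the curve
    have hFc : ContinuousOn (fun t => F m (γ t).ofLp i) (Icc a b) :=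
      ((continuous_apply i).comp (continuous_F m)).comp_continuousOn hcc
    obtain ⟨R, hR⟩ := isCompact_Icc.exists_bound_of_continuousOn hFc
    have hψ : BoundedVariationOn (fun t => ψ m (F m (γ t).ofLp i)) (Icc a b) := bv_coord hbv2 i
    have hlip : LipschitzOnWith (Real.toNNReal ((1 + R ^ 2) * (2 * (m + 2))))
        (fun u => Real.tan ((2 * (m + 2)) * u)) ((ψ m) '' (Icc (-R) R)) := by
      apply LipschitzOnWith.of_dist_le_mul
      rintro _ ⟨u, hu, rfl⟩ _ ⟨v, hv, rfl⟩
      rw [tan_ψ, tan_ψ, Real.coe_toNNReal _ (by positivity), Real.dist_eq, Real.dist_eq]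
      have hatan : |u - v| ≤ (1 + R ^ 2) * |Real.arctan u - Real.arctan v| := arctan_lower hu hv
      have h5 : |ψ m u - ψ m v| = |Real.arctan u - Real.arctan v| / (2 * (m + 2)) := by
        unfold ψ
        rw [← sub_div, abs_div, abs_of_pos (by positivity : (0 : ℝ) < 2 * (m + 2))]
      rw [h5]
      calc |u - v| ≤ (1 + R ^ 2) * |Real.arctan u - Real.arctan v| := hatan
        _ = _ := by field_simp
    have h6 := hlip.comp_boundedVariationOn (f := fun u => Real.tan ((2 * (m + 2)) * u))
      (g := fun t => ψ m (F m (γ t).ofLp i)) (s := Icc a b) (by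
        intro t ht
        refine ⟨F m (γ t).ofLp i, ?_, rfl⟩
        have := hR t ht
        rw [Real.norm_eq_abs, abs_le] at this
        exact this) hψ
    simpa only [Function.comp_def, tan_ψ] using h6
  have h4 := const_of_bv_F m hcc (fun i => bv_coord hbv i) h3 s hs t ht
  exact WithLp.ofLp_injective 2 h4

/-! ### Dimension one -/

/-- coordinate -/
def pc (x : E 1) : ℝ := x 0

/-- the line -/
def qc (s : ℝ) : E 1 := WithLp.toLp 2 (fun _ => s)

lemma pc_qc (s : ℝ) : pc (qc s) = s := rfl

lemma qc_pc (x : E 1) : qc (pc x) = x := by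
  ext i
  simp [qc, pc, Subsingleton.elim i 0]

lemma continuous_pc : Continuous pc := by
  unfold pc; fun_prop

lemma continuous_qc : Continuous qc := by
  unfold qc
  exact (PiLp.continuous_toLp 2 _).comp (continuous_pi fun _ => continuous_id)

lemma dist_qc (s t : ℝ) : dist (qc s) (qc t) = |s - t| := by
  rw [EuclideanSpace.dist_eq]
  simp [qc, Real.sqrt_sq_eq_abs, Real.dist_eq]

lemma qc_add (s t : ℝ) : qc (s + t) = qc s + qc t := rfl

lemma preserving_pc : MeasurePreserving pc (volume : Measure (E 1)) (volume : Measure ℝ) :=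
  (MeasureTheory.volume_preserving_funUnique (Fin 1) ℝ).comp (PiLp.volume_preserving_ofLp (Fin 1))

section
variable {V : Set ℝ} (hV : IsOpen V) (hvol : volume V ≤ 1)

/-- the measure to the left of a point -/
def g (V : Set ℝ) (s : ℝ) : ℝ := (volume (V ∩ Iic s)).toReal

include hvol in
lemma fin_g (s : Set ℝ) : volume (V ∩ s) ≠ ⊤ :=
  ne_top_of_le_ne_top ENNReal.one_ne_top ((measure_mono inter_subset_left).trans hvol)

include hvol in
lemma g_nonneg (s : ℝ) : 0 ≤ g V s ∧ g V s ≤ 1 := by
  refine ⟨ENNReal.toReal_nonneg, ?_⟩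
  unfold g
  have h1 : volume (V ∩ Iic s) ≤ 1 := (measure_mono inter_subset_left).trans hvol
  have := ENNReal.toReal_mono ENNReal.one_ne_top h1
  simpa using this

include hV hvol in
lemma g_sub {s t : ℝ} (hst : s ≤ t) : g V t - g V s = (volume (V ∩ Ioc s t)).toReal := by
  have h1 : V ∩ Iic t = (V ∩ Iic s) ∪ (V ∩ Ioc s t) := by
    rw [← inter_union_distrib_left, Iic_union_Ioc_eq_Iic hst]
  have hm : MeasurableSet (V ∩ Ioc s t) := hV.measurableSet.inter measurableSet_Ioc
  have hd : Disjoint (V ∩ Iic s) (V ∩ Ioc s t) := by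
    apply Disjoint.mono inter_subset_right inter_subset_right
    exact Set.disjoint_left.2 fun x hx hx' => absurd hx'.1 (not_lt.2 hx)
  unfold g
  rw [h1, measure_union hd hm, ENNReal.toReal_add (fin_g hvol _) (fin_g hvol _)]
  ring

include hV hvol in
lemma g_sub_of_subset {s t : ℝ} (hst : s ≤ t) (hsub : Icc s t ⊆ V) : g V t - g V s = t - s := by
  rw [g_sub hV hvol hst]
  have h1 : V ∩ Ioc s t = Ioc s t := inter_eq_right.2 (Ioc_subset_Icc_self.trans hsub)
  rw [h1, Real.volume_Ioc, ENNReal.toReal_ofReal (by linarith)]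

include hV hvol in
lemma g_lt {s t : ℝ} (hst : s < t) (hs : s ∈ V) : g V s < g V t := by
  obtain ⟨r, hr, hball⟩ := Metric.isOpen_iff.1 hV s hs
  have h0 := g_sub hV hvol hst.le
  have hpos : 0 < (volume (V ∩ Ioc s t)).toReal := by
    apply ENNReal.toReal_pos _ (fin_g hvol _)
    have hsub : Ioo s (min t (s + r)) ⊆ V ∩ Ioc s t := by
      intro x hx
      have h1 : x < t := lt_of_lt_of_le hx.2 (min_le_left _ _)
      have h2 : x < s + r := lt_of_lt_of_le hx.2 (min_le_right _ _)
      refine ⟨hball ?_, hx.1, h1.le⟩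
      rw [Metric.mem_ball, Real.dist_eq, abs_of_pos (by linarith [hx.1])]
      linarith
    have h3 : volume (Ioo s (min t (s + r))) ≠ 0 := by
      rw [Real.volume_Ioo]
      simp only [ne_eq, ENNReal.ofReal_eq_zero, not_le, sub_pos]
      exact lt_min hst (by linarith)
    intro h4
    exact h3 (measure_mono_null hsub h4)
  linarith

end

/-- the embedding in dimension one -/
def f1 (U : Set (E 1)) (x : U) : E 1 := qc (g (qc ⁻¹' U) (pc x))

section
variable {U : Set (E 1)} (hU : IsOpen U) (hvol : volume U ≤ 1)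

include hU hvol in
lemma volV : volume (qc ⁻¹' U) ≤ 1 := by
  have hV : IsOpen (qc ⁻¹' U) := hU.preimage continuous_qc
  have h1 := preserving_pc.measure_preimage hV.measurableSet.nullMeasurableSet
  have h2 : pc ⁻¹' (qc ⁻¹' U) = U := by
    ext x
    rw [mem_preimage, mem_preimage, qc_pc]
  rw [h2] at h1
  rw [← h1]; exact hvol

lemma mem_V (x : U) : pc x ∈ qc ⁻¹' U := by
  rw [mem_preimage, qc_pc]; exact x.2

include hU hvol in
lemma f1_local (x : U) : ∀ᶠ y in 𝓝 x, f1 U y = (y : E 1) + (f1 U x - x) := by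
  have hV : IsOpen (qc ⁻¹' U) := hU.preimage continuous_qc
  obtain ⟨r, hr, hball⟩ := Metric.isOpen_iff.1 hV (pc x) (mem_V x)
  have hc : Continuous (fun y : U => pc y) := continuous_pc.comp continuous_subtype_val
  have h1 : ∀ᶠ y in 𝓝 x, pc (y : U) ∈ Metric.ball (pc x) r :=
    hc.continuousAt.eventually (Metric.ball_mem_nhds _ hr)
  filter_upwards [h1] with y hy
  have key : g (qc ⁻¹' U) (pc y) - g (qc ⁻¹' U) (pc x) = pc y - pc x := by
    rw [Real.ball_eq_Ioo] at hy hball
    rcases le_total (pc x) (pc y) with h | h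
    · apply g_sub_of_subset hV (volV hU hvol) h
      intro z hz
      exact hball ⟨by linarith [hz.1], by linarith [hz.2, hy.2]⟩
    · have := g_sub_of_subset hV (volV hU hvol) h (fun z hz =>
        hball ⟨by linarith [hz.1, hy.1], by linarith [hz.2]⟩)
      linarith
  have h2 : g (qc ⁻¹' U) (pc y) = pc y + (g (qc ⁻¹' U) (pc x) - pc x) := by linarith
  unfold f1
  rw [h2, qc_add, qc_pc]
  congr 1
  have h3 : qc (g (qc ⁻¹' U) (pc x) - pc x) + qc (pc x) = qc (g (qc ⁻¹' U) (pc x)) := by
    rw [← qc_add]; congr 1; ring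
  rw [← h3, qc_pc]
  abel

include hU hvol in
lemma embedding_f1 : IsEmbedding (f1 U) := by
  have hV : IsOpen (qc ⁻¹' U) := hU.preimage continuous_qc
  have hcont : Continuous (f1 U) := by
    rw [continuous_iff_continuousAt]
    intro x
    have h1 : ContinuousAt (fun y : U => (y : E 1) + (f1 U x - x)) x := by fun_prop
    exact h1.congr (EventuallyEq.symm (f1_local hU hvol x))
  have hinj : Function.Injective (f1 U) := by
    intro x y hxy
    have h1 : g (qc ⁻¹' U) (pc x) = g (qc ⁻¹' U) (pc y) := by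
      have := congrArg pc hxy
      exact this
    have h2 : pc (x : E 1) = pc (y : E 1) := by
      rcases lt_trichotomy (pc (x : E 1)) (pc (y : E 1)) with h | h | h
      · exact absurd h1 (g_lt hV (volV hU hvol) h (mem_V x)).ne
      · exact h
      · exact absurd h1 (g_lt hV (volV hU hvol) h (mem_V y)).ne'
    apply Subtype.ext
    rw [← qc_pc (x : E 1), h2, qc_pc]
  have hopen : IsOpenMap (f1 U) := by
    rw [isOpenMap_iff_nhds_le]
    intro x
    have h1 : map (f1 U) (𝓝 x) = map (fun y : U => (y : E 1) + (f1 U x - x)) (𝓝 x) :=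
      Filter.map_congr (f1_local hU hvol x)
    rw [h1]
    have h2 : map (fun y : U => (y : E 1) + (f1 U x - x)) (𝓝 x)
        = map (fun z : E 1 => z + (f1 U x - x)) (map ((↑) : U → E 1) (𝓝 x)) := by
      rw [Filter.map_map]; rfl
    rw [h2, hU.isOpenEmbedding_subtypeVal.map_nhds_eq]
    have h3 : map (fun z : E 1 => z + (f1 U x - x)) (𝓝 (x : E 1)) = 𝓝 ((x : E 1) + (f1 U x - x)) :=
      (Homeomorph.addRight (f1 U x - (x : E 1))).map_nhds_eq _
    rw [h3, add_sub_cancel]
  exact (IsOpenEmbedding.of_continuous_injective_isOpenMap hcont hinj hopen).isEmbedding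

include hU hvol in
lemma norm_f1 (x : U) : ‖f1 U x‖ ≤ 1 := by
  have h1 := g_nonneg (volV hU hvol) (pc x)
  have h2 : ‖f1 U x‖ = |g (qc ⁻¹' U) (pc x) - 0| := by
    rw [← dist_qc, ← dist_zero_right]
    rfl
  rw [h2, sub_zero, abs_of_nonneg h1.1]
  exact h1.2

include hU hvol in
lemma length_f1 {γ : ℝ → U} {a b : ℝ} (hc : ContinuousOn γ (Icc a b)) :
    length (fun t => (γ t : E 1)) a b ≤ length (fun t => f1 U (γ t)) a b := by
  have hV : IsOpen (qc ⁻¹' U) := hU.preimage continuous_qc
  have hc2 : ContinuousOn (fun t => pc (γ t)) (Icc a b) :=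
    (continuous_pc.comp continuous_subtype_val).comp_continuousOn hc
  have hord : OrdConnected ((fun t => pc (γ t)) '' (Icc a b)) :=
    (isPreconnected_Icc.image _ hc2).ordConnected
  have hsub : (fun t => pc (γ t)) '' (Icc a b) ⊆ qc ⁻¹' U := by
    rintro _ ⟨t, _, rfl⟩
    exact mem_V (γ t)
  have key : ∀ s ∈ Icc a b, ∀ t ∈ Icc a b,
      edist (f1 U (γ s)) (f1 U (γ t)) = edist (γ s : E 1) (γ t : E 1) := by
    intro s hs t ht
    have h1 : g (qc ⁻¹' U) (pc (γ s)) - g (qc ⁻¹' U) (pc (γ t)) = pc (γ s) - pc (γ t) := by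
      rcases le_total (pc (γ s)) (pc (γ t)) with h | h
      · have := g_sub_of_subset hV (volV hU hvol) h
          ((hord.out (mem_image_of_mem _ hs) (mem_image_of_mem _ ht)).trans hsub)
        linarith
      · exact g_sub_of_subset hV (volV hU hvol) h
          ((hord.out (mem_image_of_mem _ ht) (mem_image_of_mem _ hs)).trans hsub)
    have h2 : dist (γ s : E 1) (γ t : E 1) = |pc (γ s) - pc (γ t)| := by
      rw [← dist_qc, qc_pc, qc_pc]
    rw [edist_dist, edist_dist, h2]
    unfold f1
    rw [dist_qc, h1]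
  apply iSup_le
  rintro ⟨n, u, hu, hus⟩
  refine le_trans (le_of_eq ?_) (eVariationOn.sum_le (f := fun t => f1 U (γ t)) (s := Icc a b) (n := n) hu hus)
  apply Finset.sum_congr rfl
  intro i _
  exact (key _ (hus _) _ (hus _)).symm

end

end

end Pool.Agent.U327.Sponge
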