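import Mathlib

set_option autoImplicit false

/-!
# The circle `ℝ / 2ℤ` as a manifold modelled on the half line
-/

open Set Filter Topology
open scoped Manifold ContDiff

namespace Pool.Agent.U327.Circ

noncomputable section

instance : Fact (0 < (2 : ℝ)) := ⟨two_pos⟩

/-- the circle `ℝ / 2ℤ` -/
abbrev T : Type := AddCircle (2 : ℝ)

/-- the open partial homeomorphism `(a, a+2) → T` -/
abbrev eC (a : ℝ) : OpenPartialHomeomorph ℝ T := AddCircle.openPartialHomeomorphCoe 2 a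

/-- the constant vector -/
def vec (s : ℝ) : EuclideanSpace ℝ (Fin 1) := WithLp.toLp 2 fun _ => s

lemma contDiff_vec {n : WithTop ℕ∞} : ContDiff ℝ n vec := by
  unfold vec
  exact contDiff_euclidean.2 (fun i => by fun_prop)

lemma contDiff_coord {n : WithTop ℕ∞} :
    ContDiff ℝ n (fun v : EuclideanSpace ℝ (Fin 1) => v 0) := by
  fun_prop

lemma vec_coord (v : EuclideanSpace ℝ (Fin 1)) : vec (v 0) = v := by
  ext i
  simp [vec, Subsingleton.elim i 0]

/-- the coordinate on the half line -/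
def cH (z : EuclideanHalfSpace 1) : ℝ := z.val 0

/-- the map from the line to the half line -/
def jH (s : ℝ) : EuclideanHalfSpace 1 := (𝓡∂ 1).symm (vec s)

lemma cH_jH {s : ℝ} (hs : 0 ≤ s) : cH (jH s) = s := by
  simp [cH, jH, vec, modelWithCornersEuclideanHalfSpace_symm_apply, hs]

lemma jH_cH (z : EuclideanHalfSpace 1) : jH (cH z) = z := by
  unfold jH cH
  rw [vec_coord]
  exact (𝓡∂ 1).left_inv z

lemma contMDiff_cH {n : WithTop ℕ∞} : ContMDiff (𝓡∂ 1) 𝓘(ℝ) n cH :=
  (contDiff_coord.contMDiff).comp (ModelWithCorners.contMDiff (I := 𝓡∂ 1))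

lemma contMDiffOn_jH {n : WithTop ℕ∞} : ContMDiffOn 𝓘(ℝ) (𝓡∂ 1) n jH (Ici 0) := by
  refine (ModelWithCorners.contMDiffOn_symm (I := 𝓡∂ 1) (n := n)).comp
    (contDiff_vec.contMDiff.contMDiffOn) ?_
  intro s hs
  rw [mem_preimage, range_modelWithCornersEuclideanHalfSpace]
  simpa [vec] using hs

lemma continuous_cH : Continuous cH := contMDiff_cH (n := 0) |>.continuous

lemma continuous_jH : Continuous jH :=
  (𝓡∂ 1).continuous_symm.comp (contDiff_vec (n := 0)).continuous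

/-- the inclusion of the open half line -/
def iH : OpenPartialHomeomorph ℝ (EuclideanHalfSpace 1) where
  toFun := jH
  invFun := cH
  source := Ioi 0
  target := cH ⁻¹' Ioi 0
  map_source' := by
    intro s hs
    rw [mem_preimage, cH_jH (le_of_lt hs)]
    exact hs
  map_target' := by
    intro z hz
    exact hz
  left_inv' := by
    intro s hs
    exact cH_jH (le_of_lt hs)
  right_inv' := by
    intro z _
    exact jH_cH z
  open_source := isOpen_Ioi
  open_target := isOpen_Ioi.preimage continuous_cH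
  continuousOn_toFun := continuous_jH.continuousOn
  continuousOn_invFun := continuous_cH.continuousOn

/-- the charts -/
def ch (a : ℝ) : OpenPartialHomeomorph T (EuclideanHalfSpace 1) := (eC a).symm ≫ₕ iH

lemma mem_source_ch {a : ℝ} (ha : 0 ≤ a) {x : T} (hx : x ≠ (a : T)) : x ∈ (ch a).source := by
  have h1 : (eC a).symm x ∈ Ioo a (a + 2) := (eC a).map_target (x := x) (by simpa using hx)
  simp only [ch, OpenPartialHomeomorph.trans_source, mem_inter_iff, mem_preimage]
  refine ⟨by simpa using hx, ?_⟩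
  exact lt_of_le_of_lt ha h1.1

lemma one_ne_zero_T : ((1 : ℝ) : T) ≠ ((2 : ℝ) : T) := by
  intro h
  have h2 : ((2 : ℝ) : T) = 0 := AddCircle.coe_period 2
  rw [h2, AddCircle.coe_eq_zero_iff] at h
  obtain ⟨n, hn⟩ := h
  rw [zsmul_eq_mul] at hn
  have h3 : ((n * 2 : ℤ) : ℝ) = ((1 : ℤ) : ℝ) := by push_cast; exact hn
  have h4 : n * 2 = 1 := by exact_mod_cast h3
  omega

open Classical in
/-- the charted space structure -/
instance chartedT : ChartedSpace (EuclideanHalfSpace 1) T where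
  atlas := {ch 1, ch 2}
  chartAt x := if x = ((1 : ℝ) : T) then ch 2 else ch 1
  mem_chart_source x := by
    split_ifs with h
    · exact mem_source_ch (by norm_num) (by rw [h]; exact one_ne_zero_T)
    · exact mem_source_ch (by norm_num) h
  chart_mem_atlas x := by
    split_ifs with h
    · simp
    · simp

/-- Key local formula. -/
lemma section_coe {a s t : ℝ} (ht : t ∈ Ioo a (a + 2)) (hst : (t : T) = (s : T)) :
    ∀ᶠ u : ℝ in 𝓝 s, (eC a).symm (u : T) = u + (t - s) := by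
  have h1 : Tendsto (fun u : ℝ => u + (t - s)) (𝓝 s) (𝓝 t) := by
    have : Continuous (fun u : ℝ => u + (t - s)) := by fun_prop
    simpa using this.tendsto s
  filter_upwards [h1.eventually (isOpen_Ioo.mem_nhds ht)] with u hu
  have h2 : ((u + (t - s) : ℝ) : T) = (u : T) := by
    rw [AddCircle.coe_add, AddCircle.coe_sub, hst]
    simp
  have h3 := (eC a).left_inv (x := u + (t - s)) hu
  rw [← h2]
  exact h3

lemma eC_symm_mem {a : ℝ} {x : T} (hx : x ≠ (a : T)) : (eC a).symm x ∈ Ioo a (a + 2) :=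
  (eC a).map_target (x := x) (by simpa using hx)

lemma coe_eC_symm {a : ℝ} {x : T} (hx : x ≠ (a : T)) : (((eC a).symm x : ℝ) : T) = x :=
  (eC a).right_inv (x := x) (by simpa using hx)

lemma coe_ne {a t : ℝ} (ht : t ∈ Ioo a (a + 2)) : (t : T) ≠ (a : T) := by
  have := (eC a).map_source ht
  simpa using this

lemma ch_apply (a : ℝ) (x : T) : ch a x = jH ((eC a).symm x) := rfl

lemma ch_symm_apply (a : ℝ) (z : EuclideanHalfSpace 1) : (ch a).symm z = ((cH z : ℝ) : T) := rfl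

lemma mem_ch_target {a : ℝ} {z : EuclideanHalfSpace 1} (h : z ∈ (ch a).target) :
    0 < cH z ∧ cH z ∈ Ioo a (a + 2) := by
  simp only [ch, OpenPartialHomeomorph.trans_target, mem_inter_iff, mem_preimage,
    OpenPartialHomeomorph.symm_target] at h
  exact h

lemma mem_ch_source {a : ℝ} {x : T} (h : x ∈ (ch a).source) :
    x ≠ (a : T) ∧ 0 < (eC a).symm x := by
  simp only [ch, OpenPartialHomeomorph.trans_source, mem_inter_iff, mem_preimage,
    OpenPartialHomeomorph.symm_source] at h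
  exact ⟨by simpa using h.1, h.2⟩

lemma val_jH {s : ℝ} (hs : 0 ≤ s) : (jH s).val = vec s := by
  have h := cH_jH hs
  unfold cH at h
  rw [← vec_coord (jH s).val, h]

/-- Smooth compatibility of the charts. -/
lemma compat {n : WithTop ℕ∞} {a b : ℝ} :
    ContDiffOn ℝ n ((𝓡∂ 1) ∘ (ch a).symm ≫ₕ (ch b) ∘ (𝓡∂ 1).symm)
      ((𝓡∂ 1).symm ⁻¹' ((ch a).symm ≫ₕ (ch b)).source ∩ range (𝓡∂ 1)) := by
  rintro z ⟨hz1, hz2⟩
  rw [range_modelWithCornersEuclideanHalfSpace] at hz2
  have hz0 : (0 : ℝ) ≤ z 0 := hz2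
  set s : ℝ := z 0 with hs
  have hsymm : ∀ w : EuclideanSpace ℝ (Fin 1), (𝓡∂ 1).symm w = jH (w 0) := by
    intro w
    unfold jH; rw [vec_coord]
  rw [mem_preimage, hsymm] at hz1
  simp only [OpenPartialHomeomorph.trans_source, mem_inter_iff, mem_preimage,
    OpenPartialHomeomorph.symm_source] at hz1
  obtain ⟨h1, h2⟩ := hz1
  obtain ⟨h3, h4⟩ := mem_ch_target h1
  rw [ch_symm_apply] at h2
  obtain ⟨h5, h6⟩ := mem_ch_source h2
  rw [cH_jH hz0] at h3 h4 h5 h6
  set t : ℝ := (eC b).symm (s : T) with ht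
  have ht1 : t ∈ Ioo b (b + 2) := eC_symm_mem h5
  have ht2 : (t : T) = (s : T) := coe_eC_symm h5
  have h7 := section_coe ht1 ht2
  have hc : Tendsto (fun w : EuclideanSpace ℝ (Fin 1) => w 0) (𝓝 z) (𝓝 s) := by
    have : Continuous (fun w : EuclideanSpace ℝ (Fin 1) => w 0) := by fun_prop
    exact this.tendsto z
  have h8 : ∀ᶠ u : ℝ in 𝓝 s, 0 < u := isOpen_Ioi.mem_nhds h3
  have h9 : ∀ᶠ u : ℝ in 𝓝 s, 0 < u + (t - s) := by
    have h91 : Tendsto (fun u : ℝ => u + (t - s)) (𝓝 s) (𝓝 t) := by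
      have : Continuous (fun u : ℝ => u + (t - s)) := by fun_prop
      simpa using this.tendsto s
    exact h91.eventually (isOpen_Ioi.mem_nhds h6)
  have key : ∀ᶠ w in 𝓝 z, ((𝓡∂ 1) ∘ (ch a).symm ≫ₕ (ch b) ∘ (𝓡∂ 1).symm) w
      = vec (w 0 + (t - s)) := by
    filter_upwards [hc.eventually h7, hc.eventually h8, hc.eventually h9] with w hw1 hw2 hw3
    show ((ch b) ((ch a).symm ((𝓡∂ 1).symm w))).val = _
    rw [hsymm, ch_symm_apply, ch_apply, cH_jH hw2.le, hw1, val_jH hw3.le]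
  have hg : ContDiffAt ℝ n (fun w : EuclideanSpace ℝ (Fin 1) => vec (w 0 + (t - s))) z := by
    apply ContDiff.contDiffAt
    exact contDiff_vec.comp (contDiff_coord.add contDiff_const)
  exact (hg.congr_of_eventuallyEq key).contDiffWithinAt

instance isManifoldT {n : WithTop ℕ∞} : IsManifold (𝓡∂ 1) n T := by
  apply isManifold_of_contDiffOn
  rintro e e' (rfl | rfl) (rfl | rfl) <;> exact compat

/-- The projection from the line to the circle is smooth. -/
lemma contMDiff_coe {n : WithTop ℕ∞} : ContMDiff 𝓘(ℝ) (𝓡∂ 1) n (fun t : ℝ => (t : T)) := by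
  intro t
  have hex : ∃ b : ℝ, 0 ≤ b ∧ ch b ∈ atlas (EuclideanHalfSpace 1) T ∧ (t : T) ≠ (b : T) := by
    by_cases h : (t : T) = ((1 : ℝ) : T)
    · exact ⟨2, by norm_num, Or.inr rfl, by rw [h]; exact one_ne_zero_T⟩
    · exact ⟨1, by norm_num, Or.inl rfl, h⟩
  obtain ⟨b, hb0, hb1, hb2⟩ := hex
  set s : ℝ := (eC b).symm (t : T) with hs
  have hs1 : s ∈ Ioo b (b + 2) := eC_symm_mem hb2
  have hs2 : (s : T) = (t : T) := coe_eC_symm hb2
  have hs0 : 0 < s := lt_of_le_of_lt hb0 hs1.1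
  have h1 : ContMDiffAt 𝓘(ℝ) 𝓘(ℝ) n (fun u : ℝ => u + (s - t)) t := by
    apply ContMDiff.contMDiffAt
    rw [contMDiff_iff_contDiff]
    fun_prop
  have h2 : ContMDiffAt 𝓘(ℝ) (𝓡∂ 1) n jH (t + (s - t)) := by
    refine contMDiffOn_jH.contMDiffAt ?_
    have : t + (s - t) = s := by ring
    rw [this]
    exact Ici_mem_nhds hs0
  have h3 : ContMDiffAt (𝓡∂ 1) (𝓡∂ 1) n (ch b).symm (jH (t + (s - t))) := by
    have : t + (s - t) = s := by ring
    rw [this]
    refine contMDiffAt_symm_of_mem_maximalAtlas (StructureGroupoid.subset_maximalAtlas _ hb1) ?_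
    simp only [ch, OpenPartialHomeomorph.trans_target, mem_inter_iff, mem_preimage,
      OpenPartialHomeomorph.symm_target]
    refine ⟨?_, ?_⟩
    · show 0 < cH (jH s)
      rw [cH_jH hs0.le]; exact hs0
    · show cH (jH s) ∈ Ioo b (b + 2)
      rw [cH_jH hs0.le]; exact hs1
  have h4 := h3.comp t (h2.comp t h1)
  refine h4.congr_of_eventuallyEq ?_
  have h5 : ∀ᶠ u : ℝ in 𝓝 t, 0 < u + (s - t) := by
    have h91 : Tendsto (fun u : ℝ => u + (s - t)) (𝓝 t) (𝓝 s) := by
      have : Continuous (fun u : ℝ => u + (s - t)) := by fun_prop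
      simpa using this.tendsto t
    exact h91.eventually (isOpen_Ioi.mem_nhds hs0)
  filter_upwards [h5] with u hu
  show (u : T) = (ch b).symm (jH (u + (s - t)))
  rw [ch_symm_apply, cH_jH hu.le, AddCircle.coe_add, AddCircle.coe_sub, hs2]
  simp

/-- Sections of the projection are smooth. -/
lemma contMDiffAt_section {n : WithTop ℕ∞} {a : ℝ} {x : T} (hx : x ≠ (a : T)) :
    ContMDiffAt (𝓡∂ 1) 𝓘(ℝ) n (fun y : T => (eC a).symm y) x := by
  have hex : ∃ b : ℝ, 0 ≤ b ∧ ch b ∈ atlas (EuclideanHalfSpace 1) T ∧ x ≠ (b : T) := by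
    by_cases h : x = ((1 : ℝ) : T)
    · exact ⟨2, by norm_num, Or.inr rfl, by rw [h]; exact one_ne_zero_T⟩
    · exact ⟨1, by norm_num, Or.inl rfl, h⟩
  obtain ⟨b, hb0, hb1, hb2⟩ := hex
  have hxs : x ∈ (ch b).source := mem_source_ch hb0 hb2
  have h1 : ContMDiffAt (𝓡∂ 1) (𝓡∂ 1) n (ch b) x :=
    contMDiffAt_of_mem_maximalAtlas (StructureGroupoid.subset_maximalAtlas _ hb1) hxs
  set s : ℝ := (eC b).symm x with hs
  have hs1 : s ∈ Ioo b (b + 2) := eC_symm_mem hb2
  have hs2 : (s : T) = x := coe_eC_symm hb2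
  have hs0 : 0 < s := lt_of_le_of_lt hb0 hs1.1
  set t : ℝ := (eC a).symm x with ht
  have ht1 : t ∈ Ioo a (a + 2) := eC_symm_mem hx
  have ht2 : (t : T) = (s : T) := by rw [hs2]; exact coe_eC_symm hx
  have h2 : ContMDiffAt (𝓡∂ 1) 𝓘(ℝ) n (fun y : T => cH (ch b y) + (t - s)) x := by
    have h3 : ContMDiffAt (𝓡∂ 1) 𝓘(ℝ) n (fun y : T => cH (ch b y)) x :=
      (contMDiff_cH.contMDiffAt).comp x h1
    have h4 : ContMDiff 𝓘(ℝ) 𝓘(ℝ) n (fun u : ℝ => u + (t - s)) := by
      rw [contMDiff_iff_contDiff]; fun_prop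
    exact (h4.contMDiffAt).comp x h3
  refine h2.congr_of_eventuallyEq ?_
  have hcont : Tendsto (fun y : T => (eC b).symm y) (𝓝 x) (𝓝 s) := by
    have := (eC b).symm.continuousAt (x := x) (by simpa using hb2)
    exact this
  have h5 := hcont.eventually (section_coe ht1 ht2)
  have h6 : ∀ᶠ y in 𝓝 x, y ≠ (b : T) := isOpen_compl_singleton.mem_nhds hb2
  have h7 : ∀ᶠ y in 𝓝 x, 0 < (eC b).symm y := hcont.eventually (isOpen_Ioi.mem_nhds hs0)
  filter_upwards [h5, h6, h7] with y hy1 hy2 hy3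
  rw [coe_eC_symm hy2] at hy1
  rw [ch_apply, cH_jH hy3.le]
  exact hy1

end

end Pool.Agent.U327.Circ
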