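import Mathlib
import Pool.Agent.U327.Circ

set_option autoImplicit false

/-!
# Doubling `C^1` actions on the interval
-/

open Set Filter Topology
open scoped Manifold ContDiff

namespace Pool.Agent.U327.Double

open Pool.Agent.U327.Circ

noncomputable section

/-- The unit interval. -/
abbrev J : Type := Icc (0 : ℝ) 1

/-- Extension by point reflection. -/
lemma refl_ext (h : ℝ → ℝ) (hh : ContDiffOn ℝ 1 h (Icc 0 1)) :
    ∃ G : ℝ → ℝ, ContDiff ℝ 1 G ∧ (∀ t ∈ Icc (0 : ℝ) 1, G t = h t) ∧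
      ∀ t, G (-t) = 2 * h 0 - G t := by
  set d : ℝ → ℝ := derivWithin h (Icc 0 1) with hd
  have hdc : ContinuousOn d (Icc 0 1) :=
    hh.continuousOn_derivWithin (uniqueDiffOn_Icc zero_lt_one) le_rfl
  set D : ℝ → ℝ := fun u => d (projIcc 0 1 zero_le_one |u|) with hD
  have hDc : Continuous D := by
    have h1 : Continuous (fun x : J => d x) := continuousOn_iff_continuous_domRestrict.1 hdc
    exact h1.comp (continuous_projIcc.comp continuous_abs)
  have hDe : ∀ u, D (-u) = D u := by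
    intro u; simp [hD]
  refine ⟨fun t => h 0 + ∫ u in (0 : ℝ)..t, D u, ?_, ?_, ?_⟩
  · have h1 : ∀ t, HasDerivAt (fun t => h 0 + ∫ u in (0 : ℝ)..t, D u) (D t) t := by
      intro t
      have := (hDc.integral_hasStrictDerivAt 0 t).hasDerivAt
      simpa using this.const_add (h 0)
    rw [contDiff_one_iff_deriv]
    refine ⟨fun t => (h1 t).differentiableAt, ?_⟩
    have h2 : deriv (fun t => h 0 + ∫ u in (0 : ℝ)..t, D u) = D := by
      ext t; exact (h1 t).deriv
    rw [h2]; exact hDc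
  · intro t ht
    have h1 : ∫ u in (0 : ℝ)..t, D u = h t - h 0 := by
      apply intervalIntegral.integral_eq_sub_of_hasDerivAt_of_le ht.1
      · exact hh.continuousOn.mono (Icc_subset_Icc le_rfl ht.2)
      · intro x hx
        have hx1 : x ∈ Icc (0 : ℝ) 1 := ⟨hx.1.le, hx.2.le.trans ht.2⟩
        have hx2 : Icc (0 : ℝ) 1 ∈ 𝓝 x := Icc_mem_nhds hx.1 (hx.2.trans_le ht.2)
        have hx3 : D x = d x := by
          simp only [hD]
          rw [abs_of_pos hx.1, projIcc_of_mem zero_le_one hx1]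
        rw [hx3]
        exact ((hh.differentiableOn one_ne_zero) x hx1).hasDerivWithinAt.hasDerivAt hx2
      · exact hDc.intervalIntegrable _ _
    simp only
    rw [h1]; ring
  · intro t
    have h1 : ∫ u in (0 : ℝ)..(-t), D u = - ∫ u in (0 : ℝ)..t, D u := by
      have h2 : ∫ u in (0 : ℝ)..t, D (-u) = ∫ u in (-t)..(-0), D u :=
        intervalIntegral.integral_comp_neg D
      simp only [hDe, neg_zero] at h2
      rw [intervalIntegral.integral_symm, ← h2]
    simp only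
    rw [h1]; ring

/-- the doubled map -/
def F (f : J → J) (x : T) : T :=
  if 0 ≤ ((AddCircle.equivIoc 2 (-1) x : ℝ)) then
    ((f (projIcc 0 1 zero_le_one (AddCircle.equivIoc 2 (-1) x : ℝ)) : ℝ) : T)
  else -((f (projIcc 0 1 zero_le_one (-(AddCircle.equivIoc 2 (-1) x : ℝ))) : ℝ) : T)

lemma F_pos (f : J → J) (s : J) : F f ((s : ℝ) : T) = ((f s : ℝ) : T) := by
  have hs : (s : ℝ) ∈ Ioc (-1 : ℝ) (-1 + 2) := ⟨by linarith [s.2.1], by linarith [s.2.2]⟩
  have h1 : (AddCircle.equivIoc 2 (-1) ((s : ℝ) : T) : ℝ) = s := by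
    rw [AddCircle.equivIoc_coe_eq hs]
  unfold F
  rw [h1, if_pos s.2.1, projIcc_val]

/-- `f` maps end points to end points -/
def Ends (f : J → J) : Prop := ∀ s : J, ((s : ℝ) = 0 ∨ (s : ℝ) = 1) → ((f s : ℝ) = 0 ∨ (f s : ℝ) = 1)

lemma coe_two : ((2 : ℝ) : T) = 0 := AddCircle.coe_period 2

lemma neg_coe_one : -((1 : ℝ) : T) = ((1 : ℝ) : T) := by
  rw [neg_eq_iff_add_eq_zero, ← AddCircle.coe_add]
  norm_num [coe_two]

lemma neg_coe_end {r : ℝ} (hr : r = 0 ∨ r = 1) : -(r : T) = (r : T) := by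
  rcases hr with rfl | rfl
  · simp
  · exact neg_coe_one

lemma F_neg {f : J → J} (hf : Ends f) (s : J) : F f (-((s : ℝ) : T)) = -((f s : ℝ) : T) := by
  rcases eq_or_lt_of_le s.2.1 with h0 | h0
  · have h1 : (s : ℝ) = 0 ∨ (s : ℝ) = 1 := Or.inl h0.symm
    rw [neg_coe_end h1, F_pos, neg_coe_end (hf s h1)]
  rcases eq_or_lt_of_le s.2.2 with h2 | h2
  · have h1 : (s : ℝ) = 0 ∨ (s : ℝ) = 1 := Or.inr h2
    rw [neg_coe_end h1, F_pos, neg_coe_end (hf s h1)]
  have hs : (-(s : ℝ)) ∈ Ioc (-1 : ℝ) (-1 + 2) := ⟨by linarith, by linarith⟩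
  have h1 : (AddCircle.equivIoc 2 (-1) (-((s : ℝ) : T)) : ℝ) = -s := by
    rw [← AddCircle.coe_neg, AddCircle.equivIoc_coe_eq hs]
  unfold F
  rw [h1, if_neg (by linarith), neg_neg, projIcc_val]

lemma cover (x : T) : ∃ s : J, x = ((s : ℝ) : T) ∨ x = -((s : ℝ) : T) := by
  obtain ⟨t, ht, rfl⟩ : ∃ t ∈ Ioc (-1 : ℝ) (-1 + 2), ((t : ℝ) : T) = x := by
    have := AddCircle.coe_image_Ioc_eq (2 : ℝ) (-1)
    have hx : x ∈ ((↑) : ℝ → T) '' Ioc (-1 : ℝ) (-1 + 2) := by rw [this]; trivial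
    exact hx
  rcases le_or_gt 0 t with h | h
  · exact ⟨⟨t, h, by linarith [ht.2]⟩, Or.inl rfl⟩
  · refine ⟨⟨-t, by linarith, by linarith [ht.1]⟩, Or.inr ?_⟩
    simp

lemma coe_inj_J {s t : J} (h : ((s : ℝ) : T) = ((t : ℝ) : T)) : s = t := by
  have hs : (s : ℝ) ∈ Ioc (-1 : ℝ) (-1 + 2) := ⟨by linarith [s.2.1], by linarith [s.2.2]⟩
  have ht : (t : ℝ) ∈ Ioc (-1 : ℝ) (-1 + 2) := ⟨by linarith [t.2.1], by linarith [t.2.2]⟩
  exact Subtype.ext ((AddCircle.coe_eq_coe_iff_of_mem_Ioc hs ht).1 h)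

lemma F_comp {f g : J → J} (hf : Ends f) (hg : Ends g) (x : T) :
    F (f ∘ g) x = F f (F g x) := by
  have hfg : Ends (f ∘ g) := fun s hs => hf _ (hg s hs)
  obtain ⟨s, rfl | rfl⟩ := cover x
  · rw [F_pos, F_pos, F_pos]; rfl
  · rw [F_neg hfg, F_neg hg, F_neg hf]; rfl

lemma F_id (x : T) : F id x = x := by
  obtain ⟨s, rfl | rfl⟩ := cover x
  · rw [F_pos]; rfl
  · have he : Ends id := fun s hs => hs
    rw [F_neg he]; rfl

lemma F_inj {f g : J → J} (h : ∀ x, F f x = F g x) : f = g := by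
  ext s
  have := h ((s : ℝ) : T)
  rw [F_pos, F_pos] at this
  rw [coe_inj_J this]

/-- A `C^1` map of the interval that preserves the end points has a `C^1` double. -/
lemma contMDiff_F {f : J → J} (hf : Ends f) (hs : ContMDiff (𝓡∂ 1) (𝓡∂ 1) 1 f) :
    ContMDiff (𝓡∂ 1) (𝓡∂ 1) 1 (F f) := by
  set h : ℝ → ℝ := fun t => (f (projIcc 0 1 zero_le_one t) : ℝ) with hh
  have hh1 : ContDiffOn ℝ 1 h (Icc 0 1) := by
    rw [← contMDiffOn_iff_contDiffOn]
    have h1 : ContMDiffOn 𝓘(ℝ) (𝓡∂ 1) 1 (f ∘ projIcc 0 1 zero_le_one) (Icc (0 : ℝ) 1) :=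
      contMDiffOn_comp_projIcc_iff.2 hs
    exact (contMDiff_subtypeVal_Icc (x := (0 : ℝ)) (y := 1)).comp_contMDiffOn h1
  have hval : ∀ s : J, h s = f s := by
    intro s; simp only [hh, projIcc_val]
  have hend0 : h 0 = 0 ∨ h 0 = 1 := by
    have := hf ⟨0, by simp⟩ (Or.inl rfl)
    rwa [← hval] at this
  have hend1 : h 1 = 0 ∨ h 1 = 1 := by
    have := hf ⟨1, by simp⟩ (Or.inr rfl)
    rwa [← hval] at this
  have htwice : ∀ r : ℝ, (r = 0 ∨ r = 1) → ((2 * r : ℝ) : T) = 0 := by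
    rintro r (rfl | rfl)
    · simp
    · rw [mul_one]; exact coe_two
  intro x
  by_cases hx : x = ((1 : ℝ) : T)
  · -- near the point `1`
    obtain ⟨G, hG, hG1, hG2⟩ := refl_ext (fun t => h (1 - t)) (by
      apply hh1.comp (by fun_prop)
      intro t ht
      exact ⟨by linarith [ht.2], by linarith [ht.1]⟩)
    have hx0 : x ≠ ((0 : ℝ) : T) := by
      rw [hx]
      have := one_ne_zero_T
      rwa [coe_two] at this
    have key : ∀ y : T, y ≠ ((0 : ℝ) : T) → F f y = ((G (1 - (eC 0).symm y) : ℝ) : T) := by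
      intro y hy
      have ht := eC_symm_mem hy
      have hty := coe_eC_symm hy
      set t : ℝ := (eC 0).symm y
      rw [zero_add] at ht
      rw [← hty]
      rcases le_or_gt t 1 with h1 | h1
      · have e1 : F f ((t : ℝ) : T) = ((f ⟨t, ht.1.le, h1⟩ : ℝ) : T) :=
          F_pos f ⟨t, ht.1.le, h1⟩
        rw [e1, hG1 (1 - t) ⟨by linarith, by linarith [ht.1]⟩, ← hval]
        simp
      · have e0 : ((t : ℝ) : T) = -(((2 - t : ℝ)) : T) := by
          rw [AddCircle.coe_sub, coe_two]; simp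
        have e1 : F f (-(((2 - t : ℝ)) : T)) = -((f ⟨2 - t, by linarith [ht.2], by linarith⟩ : ℝ) : T) :=
          F_neg hf ⟨2 - t, by linarith [ht.2], by linarith⟩
        rw [e0, e1, ← hval]
        have e2 : G (1 - t) = 2 * h 1 - h (2 - t) := by
          have e3 := hG2 (t - 1)
          rw [neg_sub] at e3
          rw [e3, hG1 (t - 1) ⟨by linarith, by linarith [ht.2]⟩]
          simp only [sub_zero]
          congr 2
          ring
        rw [e2, AddCircle.coe_sub, htwice _ hend1, zero_sub]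
    have hev : ∀ᶠ y in 𝓝 x, y ≠ ((0 : ℝ) : T) := isOpen_compl_singleton.mem_nhds hx0
    refine ContMDiffAt.congr_of_eventuallyEq ?_ (hev.mono key)
    have h1 := contMDiffAt_section (n := 1) hx0
    have h2 : ContMDiff 𝓘(ℝ) 𝓘(ℝ) 1 (fun u : ℝ => G (1 - u)) := by
      rw [contMDiff_iff_contDiff]
      exact hG.comp (by fun_prop)
    exact (contMDiff_coe.contMDiffAt).comp x ((h2.contMDiffAt).comp x h1)
  · -- away from the point `1`
    obtain ⟨G, hG, hG1, hG2⟩ := refl_ext h hh1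
    have hm : ((-1 : ℝ) : T) = ((1 : ℝ) : T) := by
      rw [AddCircle.coe_neg]; exact neg_coe_one
    have hx0 : x ≠ ((-1 : ℝ) : T) := by rw [hm]; exact hx
    have key : ∀ y : T, y ≠ ((-1 : ℝ) : T) → F f y = ((G ((eC (-1)).symm y) : ℝ) : T) := by
      intro y hy
      have ht := eC_symm_mem hy
      have hty := coe_eC_symm hy
      set t : ℝ := (eC (-1)).symm y
      rw [← hty]
      have ht2 : t < 1 := by linarith [ht.2]
      rcases le_or_gt 0 t with h1 | h1
      · have e1 : F f ((t : ℝ) : T) = ((f ⟨t, h1, ht2.le⟩ : ℝ) : T) := F_pos f ⟨t, h1, ht2.le⟩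
        rw [e1, hG1 t ⟨h1, ht2.le⟩, ← hval]
      · have e0 : ((t : ℝ) : T) = -(((- t : ℝ)) : T) := by simp
        have e1 : F f (-(((- t : ℝ)) : T)) = -((f ⟨- t, by linarith, by linarith [ht.1]⟩ : ℝ) : T) :=
          F_neg hf ⟨- t, by linarith, by linarith [ht.1]⟩
        rw [e0, e1, ← hval]
        have e2 : G t = 2 * h 0 - h (-t) := by
          have e3 := hG2 (-t)
          rw [neg_neg] at e3
          rw [e3, hG1 (-t) ⟨by linarith, by linarith [ht.1]⟩]
        rw [e2, AddCircle.coe_sub, htwice _ hend0, zero_sub]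
    have hev : ∀ᶠ y in 𝓝 x, y ≠ ((-1 : ℝ) : T) := isOpen_compl_singleton.mem_nhds hx0
    refine ContMDiffAt.congr_of_eventuallyEq ?_ (hev.mono key)
    have h1 := contMDiffAt_section (n := 1) hx0
    have h2 : ContMDiff 𝓘(ℝ) 𝓘(ℝ) 1 G := by
      rw [contMDiff_iff_contDiff]
      exact hG
    exact (contMDiff_coe.contMDiffAt).comp x ((h2.contMDiffAt).comp x h1)

/-- A continuous bijection of the interval preserves the set of end points. -/
lemma ends_of_perm (e : Equiv.Perm J) (he : Continuous e) : Ends e := by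
  have h01 : (⊥ : J) = ⟨0, by simp⟩ := rfl
  have h11 : (⊤ : J) = ⟨1, by simp⟩ := rfl
  have hs : ∀ s : J, ((s : ℝ) = 0 ∨ (s : ℝ) = 1) ↔ (s = ⊥ ∨ s = ⊤) := by
    intro s
    rw [h01, h11, Subtype.ext_iff, Subtype.ext_iff]
  intro s h
  rw [hs] at h ⊢
  rcases Continuous.strictMono_of_inj_boundedOrder' he e.injective with hm | hm
  · have h1 : e ⊥ = ⊥ := by
      obtain ⟨y, hy⟩ := e.surjective ⊥
      have : e ⊥ ≤ e y := hm.monotone bot_le
      rw [hy] at this
      exact le_bot_iff.1 this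
    have h2 : e ⊤ = ⊤ := by
      obtain ⟨y, hy⟩ := e.surjective ⊤
      have : e y ≤ e ⊤ := hm.monotone le_top
      rw [hy] at this
      exact top_le_iff.1 this
    rcases h with rfl | rfl
    · exact Or.inl h1
    · exact Or.inr h2
  · have h1 : e ⊥ = ⊤ := by
      obtain ⟨y, hy⟩ := e.surjective ⊤
      have : e y ≤ e ⊥ := hm.antitone bot_le
      rw [hy] at this
      exact top_le_iff.1 this
    have h2 : e ⊤ = ⊥ := by
      obtain ⟨y, hy⟩ := e.surjective ⊥
      have : e ⊤ ≤ e y := hm.antitone le_top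
      rw [hy] at this
      exact le_bot_iff.1 this
    rcases h with rfl | rfl
    · exact Or.inr h1
    · exact Or.inl h2

/-- The doubled action. -/
lemma doubled {G : Type} [Group G] (ρ : G →* Equiv.Perm J) (hρ : Function.Injective ρ)
    (hsm : ∀ g : G, ContMDiff (𝓡∂ 1) (𝓡∂ 1) 1 (ρ g)) :
    ∃ ρ' : G →* Equiv.Perm T, Function.Injective ρ' ∧
      ∀ g : G, ContMDiff (𝓡∂ 1) (𝓡∂ 1) 1 (ρ' g) := by
  have hE : ∀ g : G, Ends (ρ g) := fun g => ends_of_perm (ρ g) (hsm g).continuous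
  let φ : G →* Function.End T :=
    { toFun := fun g => F (ρ g)
      map_one' := by
        funext x
        rw [map_one]
        exact F_id x
      map_mul' := by
        intro a b
        funext x
        rw [map_mul]
        exact F_comp (hE a) (hE b) x }
  refine ⟨MonoidHom.toHomPerm φ, ?_, ?_⟩
  · intro a b hab
    apply hρ
    have h1 : F (ρ a) = F (ρ b) := by
      have h2 := congrArg (fun e : Equiv.Perm T => (e : T → T)) hab
      exact h2
    have h3 := F_inj (fun x => congrFun h1 x)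
    exact DFunLike.coe_injective h3
  · intro g
    exact contMDiff_F (hE g) (hsm g)

/-- The circle is not homeomorphic to the interval. -/
lemma not_homeo (e : J ≃ₜ T) : False := by
  let τ : T → T := fun x => x + ((1 : ℝ) : T)
  have hτ : Continuous τ := by fun_prop
  let ψ : J → J := fun s => e.symm (τ (e s))
  have hψ : Continuous ψ := e.symm.continuous.comp (hτ.comp e.continuous)
  let g : ℝ → ℝ := fun t => (ψ (projIcc 0 1 zero_le_one t) : ℝ)
  have hg : Continuous g := continuous_subtype_val.comp (hψ.comp continuous_projIcc)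
  obtain ⟨c, hc, hfix⟩ := exists_mem_Icc_isFixedPt_of_mapsTo (f := g) hg.continuousOn
    (zero_le_one (α := ℝ)) (fun t _ => (ψ (projIcc 0 1 zero_le_one t)).2)
  have h1 : ψ ⟨c, hc⟩ = ⟨c, hc⟩ := by
    apply Subtype.ext
    have : g c = c := hfix
    simp only [g] at this
    rw [projIcc_of_mem zero_le_one hc] at this
    exact this
  have h2 : τ (e ⟨c, hc⟩) = e ⟨c, hc⟩ := by
    have h3 := congrArg e h1
    simpa [ψ] using h3
  have h3 : ((1 : ℝ) : T) = 0 := by
    simpa [τ] using h2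
  have h4 := one_ne_zero_T
  rw [coe_two] at h4
  exact h4 h3

end

end Pool.Agent.U327.Double
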