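import Mathlib

set_option autoImplicit false

/-!
Primitive inner illuminating sets of convex bodies in 3-space are of bounded size.

For a primitive inner illuminating set `a_1, …, a_n` there are boundary points `x_1, …, x_n` such
that `x_i` and `a_j` lie in a common supporting plane if and only if `i ≠ j` (a crown).  We show that
a crown in 3-space has at most 77 indices.
-/

namespace Pool.Agent.U327.Illum

open Finset Module

variable {V : Type*} [AddCommGroup V] [Module ℝ V]

/-- `f` attains its maximum over `K` at `p`. -/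
def Sup (K : Set V) (f : V →ₗ[ℝ] ℝ) (p : V) : Prop := ∀ z ∈ K, f z ≤ f p

theorem Sup.eq {K : Set V} {f : V →ₗ[ℝ] ℝ} {p q : V} (hp : p ∈ K) (hq : q ∈ K)
    (h1 : Sup K f p) (h2 : Sup K f q) : f p = f q :=
  le_antisymm (h2 p hp) (h1 q hq)

theorem Sup.of_eq {K : Set V} {f : V →ₗ[ℝ] ℝ} {p q : V} (h1 : Sup K f p) (h : f q = f p) :
    Sup K f q := fun z hz => (h1 z hz).trans h.ge

/-- If the positive part of an affine dependence is supported by `f`, so is the negative part. -/
theorem dep_sup {ι : Type*} [Fintype ι] {K : Set V} (v : ι → V) (c : ι → ℝ) (hv : ∀ i, v i ∈ K)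
    (h0 : ∑ i, c i = 0) (h1 : ∑ i, c i • v i = 0) (f : V →ₗ[ℝ] ℝ) (p : V) (hpK : p ∈ K)
    (hp : Sup K f p)
    (hpos : ∀ i, 0 < c i → Sup K f (v i)) : ∀ i, c i < 0 → Sup K f (v i) := by
  have hle : ∀ i, f (v i) ≤ f p := fun i => hp _ (hv i)
  have hsum : ∑ i, c i * (f (v i) - f p) = 0 := by
    have : f (∑ i, c i • v i) = 0 := by rw [h1, map_zero]
    rw [map_sum] at this
    simp only [map_smul, smul_eq_mul] at this
    simp only [mul_sub, Finset.sum_sub_distrib, this, ← Finset.sum_mul, h0]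
    simp
  have hnn : ∀ i ∈ (Finset.univ : Finset ι), 0 ≤ c i * (f (v i) - f p) := by
    intro i _
    rcases lt_or_ge 0 (c i) with h | h
    · rw [(hpos i h).eq (hv i) hpK hp]; simp
    · exact mul_nonneg_of_nonpos_of_nonpos h (by linarith [hle i])
  have := (Finset.sum_eq_zero_iff_of_nonneg hnn).1 hsum
  intro i hi
  have h2 := this i (Finset.mem_univ i)
  rcases mul_eq_zero.1 h2 with h3 | h3
  · exact absurd h3 hi.ne
  · exact hp.of_eq (by linarith)

/-- existence of affine dependences -/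
theorem exists_dep [FiniteDimensional ℝ V] {m : ℕ} (u : Fin m → V) (h : finrank ℝ V + 1 < m) :
    ∃ c : Fin m → ℝ, c ≠ 0 ∧ ∑ i, c i = 0 ∧ ∑ i, c i • u i = 0 := by
  let L : (Fin m → ℝ) →ₗ[ℝ] V × ℝ :=
    LinearMap.prod (Fintype.linearCombination ℝ u) (Fintype.linearCombination ℝ (fun _ => (1 : ℝ)))
  have hker : LinearMap.ker L ≠ ⊥ := by
    apply LinearMap.ker_ne_bot_of_finrank_lt
    simp only [Module.finrank_prod, Module.finrank_self, Module.finrank_fin_fun]
    exact h
  obtain ⟨c, hc, hc0⟩ := (Submodule.ne_bot_iff _).1 hker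
  refine ⟨c, hc0, ?_, ?_⟩
  · have := congrArg Prod.snd (LinearMap.mem_ker.1 hc)
    simpa [L, Fintype.linearCombination_apply] using this
  · have := congrArg Prod.fst (LinearMap.mem_ker.1 hc)
    simpa [L, Fintype.linearCombination_apply] using this

/-- median of three numbers -/
def med (u : Fin 3 → ℝ) : ℝ := max (min (u 0) (u 1)) (min (max (u 0) (u 1)) (u 2))

theorem med_neg (u : Fin 3 → ℝ) : med (-u) = -med u := by
  unfold med
  simp only [Pi.neg_apply, min_neg_neg, max_neg_neg]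
  rcases le_total (u 0) (u 1) with h | h <;> rcases le_total (u 0) (u 2) with h' | h' <;>
    rcases le_total (u 1) (u 2) with h'' | h'' <;> simp [h, h', h''] <;> linarith

theorem med_eq' (u : Fin 3 → ℝ) (i j k : Fin 3) (hij : i ≠ j) (hik : i ≠ k) (hjk : j ≠ k)
    (h01 : u i ≤ u j) (h12 : u j ≤ u k) : med u = u j := by
  unfold med
  have h02 := h01.trans h12
  fin_cases i <;> fin_cases j <;> fin_cases k <;> simp_all

theorem med_eq (u : Fin 3 → ℝ) (σ : Equiv.Perm (Fin 3)) (h01 : u (σ 0) ≤ u (σ 1))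
    (h12 : u (σ 1) ≤ u (σ 2)) : med u = u (σ 1) :=
  med_eq' u _ _ _ (by simp) (by simp) (by simp) h01 h12

theorem continuous_med : Continuous med := by
  unfold med
  fun_prop

/-- the sorted form of the lemma on six points -/
theorem six_sorted {K : Set V} (x a : Fin 3 → V) (hx : ∀ i, x i ∈ K) (ha : ∀ i, a i ∈ K)
    (hxx : x 0 ≠ x 2) (haa : a 0 ≠ a 2) (hxa : ∀ i j, x i ≠ a j)
    (hsh : ∀ i j, ∃ f : V →ₗ[ℝ] ℝ, f ≠ 0 ∧ Sup K f (x i) ∧ Sup K f (a j))
    (l m : Fin 3 → ℝ) (hne : l ≠ 0 ∨ m ≠ 0) (hl0 : l 0 ≤ l 1) (hl1 : l 1 ≤ l 2)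
    (hm0 : m 0 ≤ m 1) (hm1 : m 1 ≤ m 2) (hlm : l 1 = m 1)
    (h0 : ∑ i, l i + ∑ i, m i = 0) (h1 : ∑ i, l i • x i + ∑ i, m i • a i = 0) :
    ∃ f : V →ₗ[ℝ] ℝ, f ≠ 0 ∧ Sup K f (x 0) ∧ Sup K f (x 2) ∧ Sup K f (a 0) ∧ Sup K f (a 2) := by
  let v : Fin 3 ⊕ Fin 3 → V := Sum.elim x a
  let c : Fin 3 ⊕ Fin 3 → ℝ := Sum.elim l m
  have hv : ∀ i, v i ∈ K := by rintro (i | i) <;> simp [v, hx, ha]
  have hc0 : ∑ i, c i = 0 := by simpa [c, Fintype.sum_sum_type] using h0
  have hc1 : ∑ i, c i • v i = 0 := by simpa [c, v, Fintype.sum_sum_type] using h1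
  have hc0' : ∑ i, (-c) i = 0 := by simp [hc0]
  have hc1' : ∑ i, (-c) i • v i = 0 := by simp [hc1]
  rcases lt_trichotomy (l 1) 0 with hc | hc | hc
  · obtain ⟨f, hf, hf1, hf2⟩ := hsh 2 2
    have key := dep_sup v c hv hc0 hc1 f (x 2) (hx 2) hf1 (by
      rintro (i | i) hi
      · simp only [c, Sum.elim_inl] at hi
        fin_cases i
        · exact absurd hi (by simp; linarith)
        · exact absurd hi (by simp; linarith)
        · exact hf1
      · simp only [c, Sum.elim_inr] at hi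
        fin_cases i
        · exact absurd hi (by simp; linarith)
        · exact absurd hi (by simp; linarith)
        · exact hf2)
    exact ⟨f, hf, key (Sum.inl 0) (by simp only [c, Sum.elim_inl]; linarith), hf1,
      key (Sum.inr 0) (by simp only [c, Sum.elim_inr]; linarith), hf2⟩
  · have hm : m 1 = 0 := by rw [← hlm, hc]
    obtain ⟨f, hf, hf1, hf2⟩ := hsh 2 2
    obtain ⟨g, hg, hg1, hg2⟩ := hsh 0 0
    have key := dep_sup v c hv hc0 hc1 f (x 2) (hx 2) hf1 (by
      rintro (i | i) hi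
      · simp only [c, Sum.elim_inl] at hi
        fin_cases i
        · exact absurd hi (by simp; linarith)
        · exact absurd hi (by simp; linarith)
        · exact hf1
      · simp only [c, Sum.elim_inr] at hi
        fin_cases i
        · exact absurd hi (by simp; linarith)
        · exact absurd hi (by simp; linarith)
        · exact hf2)
    have key' := dep_sup v (-c) hv hc0' hc1' g (x 0) (hx 0) hg1 (by
      rintro (i | i) hi
      · simp only [c, Pi.neg_apply, Sum.elim_inl] at hi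
        fin_cases i
        · exact hg1
        · exact absurd hi (by simp; linarith)
        · exact absurd hi (by simp; linarith)
      · simp only [c, Pi.neg_apply, Sum.elim_inr] at hi
        fin_cases i
        · exact hg2
        · exact absurd hi (by simp; linarith)
        · exact absurd hi (by simp; linarith))
    simp only [Fin.sum_univ_three, hc, hm, zero_smul] at h0 h1
    rcases (show l 0 ≤ 0 by linarith).lt_or_eq with hl | hl
    · rcases (show m 0 ≤ 0 by linarith).lt_or_eq with hm' | hm'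
      · exact ⟨f, hf, key (Sum.inl 0) (by simpa only [c, Sum.elim_inl] using hl), hf1,
          key (Sum.inr 0) (by simpa only [c, Sum.elim_inr] using hm'), hf2⟩
      · rcases (show 0 ≤ l 2 by linarith).lt_or_eq with hl2 | hl2
        · rcases (show 0 ≤ m 2 by linarith).lt_or_eq with hm2 | hm2
          · exact ⟨g, hg, hg1, key' (Sum.inl 2) (by simp only [c, Pi.neg_apply, Sum.elim_inl]; linarith),
              hg2, key' (Sum.inr 2) (by simp only [c, Pi.neg_apply, Sum.elim_inr]; linarith)⟩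
          · exfalso
            have e : l 2 = - l 0 := by linarith
            rw [hm', ← hm2, e] at h1
            have : l 0 • (x 0 - x 2) = 0 := by
              rw [smul_sub]; simpa [sub_eq_add_neg] using h1
            rcases smul_eq_zero.1 this with h | h
            · exact hl.ne h
            · exact hxx (sub_eq_zero.1 h)
        · exfalso
          have e : m 2 = - l 0 := by linarith
          rw [hm', ← hl2, e] at h1
          have : l 0 • (x 0 - a 2) = 0 := by
            rw [smul_sub]; simpa [sub_eq_add_neg] using h1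
          rcases smul_eq_zero.1 this with h | h
          · exact hl.ne h
          · exact hxa _ _ (sub_eq_zero.1 h)
    · rcases (show m 0 ≤ 0 by linarith).lt_or_eq with hm' | hm'
      · rcases (show 0 ≤ l 2 by linarith).lt_or_eq with hl2 | hl2
        · rcases (show 0 ≤ m 2 by linarith).lt_or_eq with hm2 | hm2
          · exact ⟨g, hg, hg1, key' (Sum.inl 2) (by simp only [c, Pi.neg_apply, Sum.elim_inl]; linarith),
              hg2, key' (Sum.inr 2) (by simp only [c, Pi.neg_apply, Sum.elim_inr]; linarith)⟩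
          · exfalso
            have e : l 2 = - m 0 := by linarith
            rw [hl, ← hm2, e] at h1
            have : m 0 • (a 0 - x 2) = 0 := by
              rw [smul_sub]
              have h3 : -(m 0 • x 2) + m 0 • a 0 = 0 := by simpa using h1
              rw [sub_eq_add_neg, add_comm]; exact h3
            rcases smul_eq_zero.1 this with h | h
            · exact hm'.ne h
            · exact hxa _ _ (sub_eq_zero.1 h).symm
        · exfalso
          have e : m 2 = - m 0 := by linarith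
          rw [hl, ← hl2, e] at h1
          have : m 0 • (a 0 - a 2) = 0 := by
            rw [smul_sub]; simpa [sub_eq_add_neg] using h1
          rcases smul_eq_zero.1 this with h | h
          · exact hm'.ne h
          · exact haa (sub_eq_zero.1 h)
      · exfalso
        have e1 : l 2 = 0 := by linarith
        have e2 : m 2 = 0 := by linarith
        rcases hne with h | h
        · apply h; funext i; fin_cases i <;> simp [hl, hc, e1]
        · apply h; funext i; fin_cases i <;> simp [hm', hm, e2]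
  · obtain ⟨g, hg, hg1, hg2⟩ := hsh 0 0
    have key' := dep_sup v (-c) hv hc0' hc1' g (x 0) (hx 0) hg1 (by
      rintro (i | i) hi
      · simp only [c, Pi.neg_apply, Sum.elim_inl] at hi
        fin_cases i
        · exact hg1
        · exact absurd hi (by simp; linarith)
        · exact absurd hi (by simp; linarith)
      · simp only [c, Pi.neg_apply, Sum.elim_inr] at hi
        fin_cases i
        · exact hg2
        · exact absurd hi (by simp; linarith)
        · exact absurd hi (by simp; linarith))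
    exact ⟨g, hg, hg1, key' (Sum.inl 2) (by simp only [c, Pi.neg_apply, Sum.elim_inl]; linarith),
              hg2, key' (Sum.inr 2) (by simp only [c, Pi.neg_apply, Sum.elim_inr]; linarith)⟩

/-- **The lemma on six points in 3-space.** -/
theorem six_points [FiniteDimensional ℝ V] (hV : finrank ℝ V ≤ 3) {K : Set V} (x a : Fin 3 → V)
    (hx : ∀ i, x i ∈ K) (ha : ∀ i, a i ∈ K)
    (hxx : Function.Injective x) (haa : Function.Injective a) (hxa : ∀ i j, x i ≠ a j)
    (hsh : ∀ i j, ∃ f : V →ₗ[ℝ] ℝ, f ≠ 0 ∧ Sup K f (x i) ∧ Sup K f (a j)) :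
    ∃ f : V →ₗ[ℝ] ℝ, f ≠ 0 ∧ ∃ i k j l, i ≠ k ∧ j ≠ l ∧
      Sup K f (x i) ∧ Sup K f (x k) ∧ Sup K f (a j) ∧ Sup K f (a l) := by
  let L : (Fin 3 → ℝ) × (Fin 3 → ℝ) →ₗ[ℝ] V × ℝ :=
    (LinearMap.prod (Fintype.linearCombination ℝ x)
      (Fintype.linearCombination ℝ (fun _ => (1 : ℝ)))).coprod
    (LinearMap.prod (Fintype.linearCombination ℝ a)
      (Fintype.linearCombination ℝ (fun _ => (1 : ℝ))))
  have hL : ∀ w, L w = (∑ i, w.1 i • x i + ∑ i, w.2 i • a i, ∑ i, w.1 i + ∑ i, w.2 i) := by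
    intro w
    simp [L, Fintype.linearCombination_apply]
  have hrk := LinearMap.finrank_range_add_finrank_ker L
  have hdom : finrank ℝ ((Fin 3 → ℝ) × (Fin 3 → ℝ)) = 6 := by simp
  have hcod : finrank ℝ (V × ℝ) ≤ 4 := by simp; omega
  have hr : finrank ℝ (LinearMap.range L) ≤ 4 := (Submodule.finrank_le _).trans hcod
  have hker : 2 ≤ finrank ℝ (LinearMap.ker L) := by omega
  obtain ⟨w, hw⟩ : ∃ w : Fin 2 → LinearMap.ker L, LinearIndependent ℝ w := by
    exact exists_linearIndependent_of_le_finrank hker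
  let γ : ℝ → (Fin 3 → ℝ) × (Fin 3 → ℝ) := fun t =>
    Real.cos t • (w 0 : (Fin 3 → ℝ) × (Fin 3 → ℝ)) + Real.sin t • (w 1 : (Fin 3 → ℝ) × (Fin 3 → ℝ))
  have hγc : Continuous γ := by fun_prop
  have hγL : ∀ t, L (γ t) = 0 := by
    intro t
    have h0 : L (w 0 : (Fin 3 → ℝ) × (Fin 3 → ℝ)) = 0 := LinearMap.mem_ker.1 (w 0).2
    have h1 : L (w 1 : (Fin 3 → ℝ) × (Fin 3 → ℝ)) = 0 := LinearMap.mem_ker.1 (w 1).2
    simp only [γ, map_add, map_smul, h0, h1, smul_zero, add_zero]
  have hγ0 : ∀ t, γ t ≠ 0 := by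
    intro t ht
    have h2 : Real.cos t • w 0 + Real.sin t • w 1 = 0 := by
      apply Subtype.ext
      simpa [γ] using ht
    have hw2 : w = ![w 0, w 1] := by
      funext i
      fin_cases i <;> rfl
    have hw' : LinearIndependent ℝ ![w 0, w 1] := hw2 ▸ hw
    have h3 := LinearIndependent.pair_iff.1 hw' _ _ h2
    have := Real.cos_sq_add_sin_sq t
    rw [h3.1, h3.2] at this
    norm_num at this
  let h : ℝ → ℝ := fun t => med (γ t).1 - med (γ t).2
  have hhc : Continuous h := by
    have := continuous_med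
    fun_prop
  have hπ : γ Real.pi = - γ 0 := by simp [γ]
  have hh : h Real.pi = - h 0 := by
    simp only [h, hπ, Prod.fst_neg, Prod.snd_neg, med_neg]
    ring
  obtain ⟨t, ht⟩ : ∃ t, h t = 0 := by
    rcases le_total (h 0) 0 with h0 | h0
    · have := mem_range_of_exists_le_of_exists_ge hhc ⟨0, h0⟩ ⟨Real.pi, by rw [hh]; linarith⟩
      exact this
    · have := mem_range_of_exists_le_of_exists_ge hhc ⟨Real.pi, (by rw [hh]; linarith : h Real.pi ≤ 0)⟩ ⟨0, h0⟩
      exact this
  have hdep := hγL t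
  rw [hL] at hdep
  have hd1 := congrArg Prod.fst hdep
  have hd2 := congrArg Prod.snd hdep
  simp only [Prod.fst_zero, Prod.snd_zero] at hd1 hd2
  set l := (γ t).1 with hl
  set m := (γ t).2 with hm
  have hsl := Tuple.monotone_sort l
  have hsm := Tuple.monotone_sort m
  set σ := Tuple.sort l
  set τ := Tuple.sort m
  have l01 : l (σ 0) ≤ l (σ 1) := hsl (by decide : (0 : Fin 3) ≤ 1)
  have l12 : l (σ 1) ≤ l (σ 2) := hsl (by decide : (1 : Fin 3) ≤ 2)
  have m01 : m (τ 0) ≤ m (τ 1) := hsm (by decide : (0 : Fin 3) ≤ 1)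
  have m12 : m (τ 1) ≤ m (τ 2) := hsm (by decide : (1 : Fin 3) ≤ 2)
  have hmed : l (σ 1) = m (τ 1) := by
    rw [← med_eq l σ l01 l12, ← med_eq m τ m01 m12]
    have : med l - med m = 0 := ht
    linarith
  obtain ⟨f, hf, h1, h2, h3, h4⟩ := six_sorted (K := K) (x ∘ σ) (a ∘ τ) (fun i => hx _)
    (fun i => ha _) (hxx.ne (by simp)) (haa.ne (by simp)) (fun i j => hxa _ _) (fun i j => hsh _ _)
    (l ∘ σ) (m ∘ τ) (by
      by_contra hcon
      push Not at hcon
      apply hγ0 t
      have e1 : l = 0 := by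
        funext i
        have := congrFun hcon.1 (σ.symm i)
        simpa using this
      have e2 : m = 0 := by
        funext i
        have := congrFun hcon.2 (τ.symm i)
        simpa using this
      exact Prod.ext e1 e2) l01 l12 m01 m12 hmed
    (by
      rw [← hd2]
      congr 1
      · exact Equiv.sum_comp σ l
      · exact Equiv.sum_comp τ m)
    (by
      rw [← hd1]
      congr 1
      · exact Equiv.sum_comp σ (fun i => l i • x i)
      · exact Equiv.sum_comp τ (fun i => m i • a i))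
  exact ⟨f, hf, σ 0, σ 2, τ 0, τ 2, by simp, by simp, h1, h2, h3, h4⟩

/-- A crown: `x i` and `a j` lie in a common supporting hyperplane of `K` iff `i ≠ j`. -/
structure Crown (K : Set V) {ι : Type*} (x a : ι → V) : Prop where
  hx : ∀ i, x i ∈ K
  ha : ∀ i, a i ∈ K
  sh : ∀ i j, i ≠ j → ∃ f : V →ₗ[ℝ] ℝ, f ≠ 0 ∧ Sup K f (x i) ∧ Sup K f (a j)
  nsh : ∀ i, ∀ f : V →ₗ[ℝ] ℝ, f ≠ 0 → Sup K f (x i) → ¬ Sup K f (a i)

theorem Crown.symm {K : Set V} {ι : Type*} {x a : ι → V} (h : Crown K x a) : Crown K a x where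
  hx := h.ha
  ha := h.hx
  sh i j hij := by
    obtain ⟨f, hf, h1, h2⟩ := h.sh j i hij.symm
    exact ⟨f, hf, h2, h1⟩
  nsh i f hf h1 h2 := h.nsh i f hf h2 h1

theorem Crown.inj {K : Set V} {ι : Type*} {x a : ι → V} (h : Crown K x a) :
    Function.Injective x := by
  intro i j hij
  by_contra hne
  obtain ⟨f, hf, h1, h2⟩ := h.sh j i (Ne.symm hne)
  exact h.nsh i f hf (hij ▸ h1) h2

/-- If `x p` dominates `x q` (every supporting functional at `x p` supports at `x q`) then `p = q`. -/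
theorem Crown.dom {K : Set V} {ι : Type*} {x a : ι → V} (h : Crown K x a) (p q : ι) (hpq : p ≠ q)
    (hd : ∀ f : V →ₗ[ℝ] ℝ, f ≠ 0 → Sup K f (x p) → Sup K f (x q)) : False := by
  obtain ⟨f, hf, h1, h2⟩ := h.sh p q hpq
  exact h.nsh q f hf (hd f hf h1) h2

/-- Three points on the intersection of two supporting planes: one of them dominates. -/
theorem three_collinear [FiniteDimensional ℝ V] (hV : finrank ℝ V ≤ 3) {K : Set V}
    (y : Fin 3 → V) (hy : ∀ i, y i ∈ K) (hinj : Function.Injective y)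
    (f g : V →ₗ[ℝ] ℝ) (hg : g ≠ 0) (hfy : ∀ i, f (y i) = f (y 0)) (hgy : ∀ i, g (y i) = g (y 0))
    (u : V) (hfu : f u ≠ 0) (hgu : g u = 0) :
    ∃ p q, p ≠ q ∧ ∀ h : V →ₗ[ℝ] ℝ, Sup K h (y p) → Sup K h (y q) := by
  have hf : f ≠ 0 := by rintro rfl; simp at hfu
  have hk1 : finrank ℝ (LinearMap.ker f) + 1 = finrank ℝ V :=
    Module.Dual.finrank_ker_add_one_of_ne_zero (f := f) hf
  have hg' : g.domRestrict (LinearMap.ker f) ≠ 0 := by
    intro hcon
    apply hg
    ext v
    have hmem : v - (f v / f u) • u ∈ LinearMap.ker f := by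
      rw [LinearMap.mem_ker, map_sub, map_smul, smul_eq_mul]
      field_simp
      ring
    have h1 := LinearMap.congr_fun hcon ⟨_, hmem⟩
    simp only [LinearMap.domRestrict_apply, LinearMap.zero_apply, map_sub, map_smul, hgu,
      smul_zero, sub_zero] at h1
    simpa using h1
  have hk2 : finrank ℝ (LinearMap.ker (g.domRestrict (LinearMap.ker f))) + 1 =
      finrank ℝ (LinearMap.ker f) :=
    Module.Dual.finrank_ker_add_one_of_ne_zero (f := g.domRestrict (LinearMap.ker f)) hg'
  let z : Fin 3 → LinearMap.ker (g.domRestrict (LinearMap.ker f)) := fun i =>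
    ⟨⟨y i - y 0, by rw [LinearMap.mem_ker, map_sub, hfy i, sub_self]⟩, by
      rw [LinearMap.mem_ker, LinearMap.domRestrict_apply, map_sub, hgy i, sub_self]⟩
  obtain ⟨c, hc, hc0, hc1⟩ := exists_dep z (by omega)
  have hc2 : ∑ i, c i • y i = 0 := by
    have h1 : ∑ i, c i • (y i - y 0) = 0 := by
      have := congrArg (fun w : LinearMap.ker (g.domRestrict (LinearMap.ker f)) =>
        ((w : LinearMap.ker f) : V)) hc1
      simpa [z] using this
    simp only [smul_sub, Finset.sum_sub_distrib, ← Finset.sum_smul, hc0, zero_smul, sub_zero] at h1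
    exact h1
  have hs := Tuple.monotone_sort c
  set σ := Tuple.sort c
  have c01 : c (σ 0) ≤ c (σ 1) := hs (by decide : (0 : Fin 3) ≤ 1)
  have c12 : c (σ 1) ≤ c (σ 2) := hs (by decide : (1 : Fin 3) ≤ 2)
  have e0 : ∑ i, c (σ i) = 0 := by rw [← hc0]; exact Equiv.sum_comp σ c
  have e1 : ∑ i, c (σ i) • y (σ i) = 0 := by
    rw [← hc2]; exact Equiv.sum_comp σ (fun i => c i • y i)
  rcases lt_trichotomy (c (σ 1)) 0 with h1 | h1 | h1
  · refine ⟨σ 2, σ 1, by simp, fun h hh => ?_⟩
    refine dep_sup (fun i => y (σ i)) (fun i => c (σ i)) (fun i => hy _) e0 e1 h _ (hy _) hh ?_ 1 h1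
    intro i hi
    fin_cases i
    · exact absurd hi (by simp; linarith)
    · exact absurd hi (by simp; linarith)
    · exact hh
  · exfalso
    simp only [Fin.sum_univ_three, h1, zero_smul, add_zero] at e0 e1
    have e2 : c (σ 2) = - c (σ 0) := by linarith
    rw [e2] at e1
    have e3 : c (σ 0) • (y (σ 0) - y (σ 2)) = 0 := by
      rw [smul_sub]; simpa [sub_eq_add_neg] using e1
    rcases smul_eq_zero.1 e3 with h | h
    · apply hc
      funext i
      have h3 : ∀ j, c (σ j) = 0 := by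
        intro j
        fin_cases j
        · exact h
        · exact h1
        · simp [e2, h]
      simpa using h3 (σ.symm i)
    · have := hinj (sub_eq_zero.1 h)
      simp at this
  · refine ⟨σ 0, σ 1, by simp, fun h hh => ?_⟩
    refine dep_sup (fun i => y (σ i)) (fun i => -c (σ i)) (fun i => hy _)
      (by rw [Finset.sum_neg_distrib, e0, neg_zero])
      (by simp only [neg_smul]; rw [Finset.sum_neg_distrib, e1, neg_zero]) h _ (hy _) hh ?_ 1
      (by simpa using h1)
    intro i hi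
    fin_cases i
    · exact hh
    · exact absurd hi (by simp; linarith)
    · exact absurd hi (by simp; linarith)

/-- Four pairwise adjacent points in a supporting plane lie on a further supporting plane. -/
theorem four_clique [FiniteDimensional ℝ V] (hV : finrank ℝ V ≤ 3) {K : Set V}
    (y : Fin 4 → V) (hy : ∀ i, y i ∈ K) (hinj : Function.Injective y)
    (f : V →ₗ[ℝ] ℝ) (hf : f ≠ 0) (hfy : ∀ i, f (y i) = f (y 0)) (hfS : Sup K f (y 0))
    (hadj : ∀ i j, i ≠ j → ∃ g : V →ₗ[ℝ] ℝ, g ≠ 0 ∧ Sup K g (y i) ∧ Sup K g (y j) ∧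
      ∃ z ∈ K, Sup K g z ∧ ¬ Sup K f z) :
    ∃ g : V →ₗ[ℝ] ℝ, g ≠ 0 ∧ (∀ i, g (y i) = g (y 0)) ∧ ∃ u, f u ≠ 0 ∧ g u = 0 := by
  have hk1 : finrank ℝ (LinearMap.ker f) + 1 = finrank ℝ V :=
    Module.Dual.finrank_ker_add_one_of_ne_zero (f := f) hf
  let z : Fin 4 → LinearMap.ker f := fun i =>
    ⟨y i - y 0, by rw [LinearMap.mem_ker, map_sub, hfy i, sub_self]⟩
  obtain ⟨c, hc, hc0, hc1⟩ := exists_dep z (by omega)
  have hc2 : ∑ i, c i • y i = 0 := by
    have h1 : ∑ i, c i • (y i - y 0) = 0 := by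
      have := congrArg (fun w : LinearMap.ker f => (w : V)) hc1
      simpa [z] using this
    simp only [smul_sub, Finset.sum_sub_distrib, ← Finset.sum_smul, hc0, zero_smul, sub_zero] at h1
    exact h1
  have hs := Tuple.monotone_sort c
  set σ := Tuple.sort c
  have c01 : c (σ 0) ≤ c (σ 1) := hs (by decide : (0 : Fin 4) ≤ 1)
  have c12 : c (σ 1) ≤ c (σ 2) := hs (by decide : (1 : Fin 4) ≤ 2)
  have c23 : c (σ 2) ≤ c (σ 3) := hs (by decide : (2 : Fin 4) ≤ 3)
  have e0 : ∑ i, c (σ i) = 0 := by rw [← hc0]; exact Equiv.sum_comp σ c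
  have e1 : ∑ i, c (σ i) • y (σ i) = 0 := by
    rw [← hc2]; exact Equiv.sum_comp σ (fun i => c i • y i)
  -- it is enough to have `g` supporting at all four
  have fin : ∀ g : V →ₗ[ℝ] ℝ, g ≠ 0 → (∀ i, Sup K g (y (σ i))) → (∃ z ∈ K, Sup K g z ∧ ¬ Sup K f z) →
      ∃ g : V →ₗ[ℝ] ℝ, g ≠ 0 ∧ (∀ i, g (y i) = g (y 0)) ∧ ∃ u, f u ≠ 0 ∧ g u = 0 := by
    rintro g hg hgs ⟨w, hw, hgw, hfw⟩
    have hgs' : ∀ i, Sup K g (y i) := fun i => by simpa using hgs (σ.symm i)
    refine ⟨g, hg, fun i => (hgs' i).eq (hy i) (hy 0) (hgs' 0), w - y 0, ?_, ?_⟩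
    · intro h
      apply hfw
      apply hfS.of_eq
      rw [map_sub] at h
      linarith
    · rw [map_sub, hgw.eq hw (hy 0) (hgs' 0), sub_self]
  rcases lt_or_ge (c (σ 1)) 0 with h1 | h1
  · obtain ⟨g, hg, g2, g3, hz⟩ := hadj (σ 2) (σ 3) (by simp)
    have key := dep_sup (fun i => y (σ i)) (fun i => c (σ i)) (fun i => hy _) e0 e1 g _ (hy _) g3 (by
      intro i hi
      fin_cases i
      · exact absurd hi (by simp; linarith)
      · exact absurd hi (by simp; linarith)
      · exact g2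
      · exact g3)
    refine fin g hg (fun i => ?_) hz
    fin_cases i
    · exact key 0 (by linarith)
    · exact key 1 (by linarith)
    · exact g2
    · exact g3
  rcases lt_or_ge 0 (c (σ 2)) with h2 | h2
  · obtain ⟨g, hg, g0, g1, hz⟩ := hadj (σ 0) (σ 1) (by simp)
    have key := dep_sup (fun i => y (σ i)) (fun i => -c (σ i)) (fun i => hy _)
      (by rw [Finset.sum_neg_distrib, e0, neg_zero])
      (by simp only [neg_smul]; rw [Finset.sum_neg_distrib, e1, neg_zero]) g _ (hy _) g0 (by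
      intro i hi
      fin_cases i
      · exact g0
      · exact g1
      · exact absurd hi (by simp; linarith)
      · exact absurd hi (by simp; linarith))
    refine fin g hg (fun i => ?_) hz
    fin_cases i
    · exact g0
    · exact g1
    · exact key 2 (by simp; linarith)
    · exact key 3 (by simp; linarith)
  · exfalso
    have c1 : c (σ 1) = 0 := by linarith
    have c2 : c (σ 2) = 0 := by linarith
    simp only [Fin.sum_univ_four, c1, c2, zero_smul, add_zero] at e0 e1
    have e2 : c (σ 3) = - c (σ 0) := by linarith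
    rw [e2] at e1
    have e3 : c (σ 0) • (y (σ 0) - y (σ 3)) = 0 := by
      rw [smul_sub]; simpa [sub_eq_add_neg] using e1
    rcases smul_eq_zero.1 e3 with h | h
    · apply hc
      funext i
      have h3 : ∀ j, c (σ j) = 0 := by
        intro j
        fin_cases j
        · exact h
        · exact c1
        · exact c2
        · simp [e2, h]
      simpa using h3 (σ.symm i)
    · have := hinj (sub_eq_zero.1 h)
      simp at this

/-- a small Ramsey lemma -/
theorem ramsey {ι : Type*} [DecidableEq ι] (adj : ι → ι → Prop) (hsymm : ∀ p q, adj p q → adj q p)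
    (R : Finset ι) (h3 : ∀ p ∈ R, ∀ q ∈ R, ∀ r ∈ R, p ≠ q → p ≠ r → q ≠ r →
      adj p q ∨ adj p r ∨ adj q r) (hR : 10 ≤ R.card) :
    ∃ y : Fin 4 → ι, Function.Injective y ∧ (∀ i, y i ∈ R) ∧ ∀ i j, i ≠ j → adj (y i) (y j) := by
  classical
  have build : ∀ p q r s : ι, p ∈ R → q ∈ R → r ∈ R → s ∈ R → p ≠ q → p ≠ r → p ≠ s → q ≠ r →
      q ≠ s → r ≠ s → adj p q → adj p r → adj p s → adj q r → adj q s → adj r s →
      ∃ y : Fin 4 → ι, Function.Injective y ∧ (∀ i, y i ∈ R) ∧ ∀ i j, i ≠ j → adj (y i) (y j) := by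
    intro p q r s hp hq hr hs h1 h2 h3 h4 h5 h6 a1 a2 a3 a4 a5 a6
    refine ⟨![p, q, r, s], ?_, ?_, ?_⟩
    · intro i j hij
      fin_cases i <;> fin_cases j <;> simp_all
    · intro i
      fin_cases i <;> simp_all
    · intro i j hij
      fin_cases i <;> fin_cases j <;> simp_all
  obtain ⟨v, hv⟩ : R.Nonempty := Finset.card_pos.1 (by omega)
  set A := (R.erase v).filter (fun u => adj v u) with hA
  set B := (R.erase v).filter (fun u => ¬ adj v u) with hB
  have hcard : A.card + B.card = (R.erase v).card := by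
    rw [hA, hB]; exact Finset.card_filter_add_card_filter_not _
  rw [Finset.card_erase_of_mem hv] at hcard
  rcases le_or_gt 4 B.card with h4 | h4
  · obtain ⟨C, hC, hC4⟩ := Finset.exists_subset_card_eq h4
    obtain ⟨p, q, r, s, h1, h2, h3', h4', h5, h6, rfl⟩ := Finset.card_eq_four.1 hC4
    have mem : ∀ t ∈ ({p, q, r, s} : Finset ι), t ∈ R ∧ t ≠ v ∧ ¬ adj v t := by
      intro t ht
      have := hC ht
      simp only [hB, Finset.mem_filter, Finset.mem_erase] at this
      exact ⟨this.1.2, this.1.1, this.2⟩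
    have cl : ∀ t ∈ ({p, q, r, s} : Finset ι), ∀ t' ∈ ({p, q, r, s} : Finset ι), t ≠ t' →
        adj t t' := by
      intro t ht t' ht' hne
      obtain ⟨a1, a2, a3⟩ := mem t ht
      obtain ⟨b1, b2, b3⟩ := mem t' ht'
      rcases h3 v hv t a1 t' b1 a2.symm b2.symm hne with h | h | h
      · exact absurd h a3
      · exact absurd h b3
      · exact h
    exact build p q r s (mem p (by simp)).1 (mem q (by simp)).1 (mem r (by simp)).1
      (mem s (by simp)).1 h1 h2 h3' h4' h5 h6 (cl _ (by simp) _ (by simp) h1)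
      (cl _ (by simp) _ (by simp) h2) (cl _ (by simp) _ (by simp) h3')
      (cl _ (by simp) _ (by simp) h4') (cl _ (by simp) _ (by simp) h5)
      (cl _ (by simp) _ (by simp) h6)
  · have hA6 : 6 ≤ A.card := by omega
    obtain ⟨w, hw⟩ : A.Nonempty := Finset.card_pos.1 (by omega)
    have hwm : w ∈ R ∧ w ≠ v ∧ adj v w := by
      simp only [hA, Finset.mem_filter, Finset.mem_erase] at hw
      exact ⟨hw.1.2, hw.1.1, hw.2⟩
    set A1 := (A.erase w).filter (fun u => adj w u) with hA1
    set A2 := (A.erase w).filter (fun u => ¬ adj w u) with hA2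
    have hcard2 : A1.card + A2.card = (A.erase w).card := by
      rw [hA1, hA2]; exact Finset.card_filter_add_card_filter_not _
    rw [Finset.card_erase_of_mem hw] at hcard2
    rcases le_or_gt 3 A2.card with h5 | h5
    · obtain ⟨C, hC, hC3⟩ := Finset.exists_subset_card_eq h5
      obtain ⟨p, q, r, h1, h2, h3', rfl⟩ := Finset.card_eq_three.1 hC3
      have mem : ∀ t ∈ ({p, q, r} : Finset ι), t ∈ R ∧ t ≠ v ∧ adj v t ∧ t ≠ w ∧ ¬ adj w t := by
        intro t ht
        have := hC ht
        simp only [hA2, hA, Finset.mem_filter, Finset.mem_erase] at this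
        exact ⟨this.1.2.1.2, this.1.2.1.1, this.1.2.2, this.1.1, this.2⟩
      have cl : ∀ t ∈ ({p, q, r} : Finset ι), ∀ t' ∈ ({p, q, r} : Finset ι), t ≠ t' →
          adj t t' := by
        intro t ht t' ht' hne
        obtain ⟨a1, a2, a3, a4, a5⟩ := mem t ht
        obtain ⟨b1, b2, b3, b4, b5⟩ := mem t' ht'
        rcases h3 w hwm.1 t a1 t' b1 a4.symm b4.symm hne with h | h | h
        · exact absurd h a5
        · exact absurd h b5
        · exact h
      exact build v p q r hv (mem p (by simp)).1 (mem q (by simp)).1 (mem r (by simp)).1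
        (mem p (by simp)).2.1.symm (mem q (by simp)).2.1.symm (mem r (by simp)).2.1.symm
        h1 h2 h3' (mem p (by simp)).2.2.1 (mem q (by simp)).2.2.1 (mem r (by simp)).2.2.1
        (cl _ (by simp) _ (by simp) h1) (cl _ (by simp) _ (by simp) h2)
        (cl _ (by simp) _ (by simp) h3')
    · have h6 : 3 ≤ A1.card := by omega
      obtain ⟨C, hC, hC3⟩ := Finset.exists_subset_card_eq h6
      obtain ⟨p, q, r, h1, h2, h3', rfl⟩ := Finset.card_eq_three.1 hC3
      have mem : ∀ t ∈ ({p, q, r} : Finset ι), t ∈ R ∧ t ≠ v ∧ adj v t ∧ t ≠ w ∧ adj w t := by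
        intro t ht
        have := hC ht
        simp only [hA1, hA, Finset.mem_filter, Finset.mem_erase] at this
        exact ⟨this.1.2.1.2, this.1.2.1.1, this.1.2.2, this.1.1, this.2⟩
      have two : ∀ t ∈ ({p, q, r} : Finset ι), ∀ t' ∈ ({p, q, r} : Finset ι), t ≠ t' →
          adj t t' → ∃ y : Fin 4 → ι, Function.Injective y ∧ (∀ i, y i ∈ R) ∧
            ∀ i j, i ≠ j → adj (y i) (y j) := by
        intro t ht t' ht' hne hadj
        obtain ⟨a1, a2, a3, a4, a5⟩ := mem t ht
        obtain ⟨b1, b2, b3, b4, b5⟩ := mem t' ht'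
        exact build v w t t' hv hwm.1 a1 b1 hwm.2.1.symm a2.symm b2.symm a4.symm b4.symm hne
          hwm.2.2 a3 b3 a5 b5 hadj
      rcases h3 p (mem p (by simp)).1 q (mem q (by simp)).1 r (mem r (by simp)).1 h1 h2 h3' with
        h | h | h
      · exact two p (by simp) q (by simp) h1 h
      · exact two p (by simp) r (by simp) h2 h
      · exact two q (by simp) r (by simp) h3' h

/-- A supporting plane contains at most 12 of the points `x i` of a crown. -/
theorem Crown.card_sup_le [FiniteDimensional ℝ V] (hV : finrank ℝ V ≤ 3) {K : Set V} {ι : Type*}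
    [Fintype ι] [DecidableEq ι] {x a : ι → V} (h : Crown K x a) (f : V →ₗ[ℝ] ℝ) (hf : f ≠ 0)
    (I : Finset ι) (hI : ∀ i ∈ I, Sup K f (x i)) : I.card ≤ 12 := by
  classical
  by_contra hcon
  push Not at hcon
  obtain ⟨T, hT, hT3⟩ := Finset.exists_subset_card_eq (show 3 ≤ I.card by omega)
  set R := I \ T with hRdef
  have hR : 10 ≤ R.card := by
    have := Finset.card_sdiff_add_card_eq_card hT
    rw [hRdef]
    omega
  have hfa : ∀ i ∈ I, ¬ Sup K f (a i) := fun i hi => h.nsh i f hf (hI i hi)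
  let e : Fin 3 ≃ T := (T.equivFinOfCardEq hT3).symm
  have heI : ∀ j, (e j : ι) ∈ I := fun j => hT (e j).2
  let adj : ι → ι → Prop := fun p q => ∃ g : V →ₗ[ℝ] ℝ, g ≠ 0 ∧ Sup K g (x p) ∧ Sup K g (x q) ∧
      ∃ z ∈ K, Sup K g z ∧ ¬ Sup K f z
  have hsymm : ∀ p q, adj p q → adj q p := by
    rintro p q ⟨g, hg, h1, h2, h3⟩
    exact ⟨g, hg, h2, h1, h3⟩
  have h3 : ∀ p ∈ R, ∀ q ∈ R, ∀ r ∈ R, p ≠ q → p ≠ r → q ≠ r →
      adj p q ∨ adj p r ∨ adj q r := by
    intro p hp q hq r hr hpq hpr hqr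
    let P : Fin 3 → ι := ![p, q, r]
    have hPinj : Function.Injective P := by
      intro i j hij
      fin_cases i <;> fin_cases j <;> simp_all [P]
    have hPR : ∀ i, P i ∈ R := by
      intro i
      fin_cases i <;> simp_all [P]
    have hPI : ∀ i, P i ∈ I := fun i => (Finset.mem_sdiff.1 (hPR i)).1
    have hne : ∀ i j, P i ≠ (e j : ι) := by
      intro i j hh
      exact (Finset.mem_sdiff.1 (hPR i)).2 (hh ▸ (e j).2)
    obtain ⟨g, hg, i, k, j, l, hik, hjl, h1, h2, h3', h4⟩ := six_points hV (K := K)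
      (fun i => x (P i)) (fun j => a (e j : ι)) (fun i => h.hx _) (fun j => h.ha _)
      (h.inj.comp hPinj) (h.symm.inj.comp (Subtype.val_injective.comp e.injective))
      (fun i j hh => hfa _ (heI j) (by
        have := hI _ (hPI i)
        rw [hh] at this
        exact this)) (fun i j => h.sh _ _ (hne i j))
    have hz : ∃ z ∈ K, Sup K g z ∧ ¬ Sup K f z := ⟨_, h.ha _, h3', hfa _ (heI j)⟩
    fin_cases i <;> fin_cases k
    · exact absurd rfl hik
    · exact Or.inl ⟨g, hg, h1, h2, hz⟩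
    · exact Or.inr (Or.inl ⟨g, hg, h1, h2, hz⟩)
    · exact Or.inl ⟨g, hg, h2, h1, hz⟩
    · exact absurd rfl hik
    · exact Or.inr (Or.inr ⟨g, hg, h1, h2, hz⟩)
    · exact Or.inr (Or.inl ⟨g, hg, h2, h1, hz⟩)
    · exact Or.inr (Or.inr ⟨g, hg, h2, h1, hz⟩)
    · exact absurd rfl hik
  obtain ⟨y, hyinj, hyR, hyadj⟩ := ramsey adj hsymm R h3 hR
  have hyI : ∀ i, y i ∈ I := fun i => (Finset.mem_sdiff.1 (hyR i)).1
  have hfy : ∀ i, f (x (y i)) = f (x (y 0)) := fun i =>
    (hI _ (hyI i)).eq (h.hx _) (h.hx _) (hI _ (hyI 0))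
  obtain ⟨g, hg, hgy, u, hfu, hgu⟩ := four_clique hV (K := K) (fun i => x (y i))
    (fun i => h.hx _) (h.inj.comp hyinj) f hf hfy (hI _ (hyI 0)) hyadj
  let y3 : Fin 3 → ι := fun i => y i.castSucc
  obtain ⟨p, q, hpq, hdom⟩ := three_collinear hV (K := K) (fun i => x (y3 i)) (fun i => h.hx _)
    (h.inj.comp (hyinj.comp (Fin.castSucc_injective 3))) f g hg (fun i => hfy _) (fun i => hgy _)
    u hfu hgu
  exact h.dom (y3 p) (y3 q) (fun hh => hpq ((hyinj.comp (Fin.castSucc_injective 3)) hh))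
    (fun f _ hh => hdom f hh)

/-- At most 24 of the points `a j` lie in a common supporting plane with both `x p` and `x q`. -/
theorem Crown.card_pair_le [FiniteDimensional ℝ V] (hV : finrank ℝ V ≤ 3) {K : Set V} {ι : Type*}
    [Fintype ι] [DecidableEq ι] {x a : ι → V} (h : Crown K x a) (p q : ι) (hpq : p ≠ q)
    (J : Finset ι) (hJ : ∀ j ∈ J, ∃ f : V →ₗ[ℝ] ℝ, f ≠ 0 ∧ Sup K f (x p) ∧ Sup K f (x q) ∧
      Sup K f (a j)) : J.card ≤ 24 := by
  classical
  have hv : x q - x p ≠ 0 := fun hh => hpq (h.inj (sub_eq_zero.1 hh).symm)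
  by_cases hline : ∃ f : V →ₗ[ℝ] ℝ, f ≠ 0 ∧ ∀ j ∈ J, Sup K f (a j)
  · obtain ⟨f, hf, hfa⟩ := hline
    have := h.symm.card_sup_le hV f hf J hfa
    omega
  push Not at hline
  rcases J.eq_empty_or_nonempty with rfl | ⟨j0, hj0⟩
  · simp
  obtain ⟨f0, hf0, f0p, f0q, -⟩ := hJ j0 hj0
  obtain ⟨j1, hj1, f0j1⟩ := hline f0 hf0
  obtain ⟨f1, hf1, f1p, f1q, f1j1⟩ := hJ j1 hj1
  obtain ⟨j2, hj2, f1j2⟩ := hline f1 hf1
  obtain ⟨f2, hf2, f2p, f2q, f2j2⟩ := hJ j2 hj2
  -- the sign of a functional supporting at `x p`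
  have hle : ∀ f : V →ₗ[ℝ] ℝ, Sup K f (x p) → ∀ j, f (a j - x p) ≤ 0 := by
    intro f hf j
    rw [map_sub]
    linarith [hf _ (h.ha j)]
  have heq : ∀ f : V →ₗ[ℝ] ℝ, Sup K f (x p) → ∀ j, Sup K f (a j) → f (a j - x p) = 0 := by
    intro f hf j hj
    rw [map_sub, hf.eq (h.hx _) (h.ha _) hj, sub_self]
  have hlt : ∀ f : V →ₗ[ℝ] ℝ, Sup K f (x p) → ∀ j, ¬ Sup K f (a j) → f (a j - x p) < 0 := by
    intro f hf j hj
    refine lt_of_le_of_ne (hle f hf j) fun hh => hj (hf.of_eq ?_)
    rw [map_sub] at hh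
    linarith
  have hv0 : ∀ f : V →ₗ[ℝ] ℝ, Sup K f (x p) → Sup K f (x q) → f (x q - x p) = 0 := by
    intro f h1 h2
    rw [map_sub, h1.eq (h.hx _) (h.hx _) h2, sub_self]
  have li : LinearIndependent ℝ ![x q - x p, a j1 - x p, a j2 - x p] := by
    rw [Fintype.linearIndependent_iff]
    intro g hg
    simp only [Fin.sum_univ_three, Matrix.cons_val_zero, Matrix.cons_val_one,
      Matrix.cons_val_two, Matrix.head_cons, Matrix.tail_cons] at hg
    have e1 := congrArg f1 hg
    simp only [map_add, map_smul, hv0 f1 f1p f1q, heq f1 f1p j1 f1j1, mul_zero, zero_add,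
      map_zero, smul_eq_mul] at e1
    have g2 : g 2 = 0 := (mul_eq_zero.1 e1).resolve_right (hlt f1 f1p j2 f1j2).ne
    rw [g2, zero_smul, add_zero] at hg
    have e0 := congrArg f0 hg
    simp only [map_add, map_smul, hv0 f0 f0p f0q, mul_zero, zero_add,
      map_zero, smul_eq_mul] at e0
    have g1 : g 1 = 0 := (mul_eq_zero.1 e0).resolve_right (hlt f0 f0p j1 f0j1).ne
    rw [g1, zero_smul, add_zero] at hg
    have g0 : g 0 = 0 := (smul_eq_zero.1 hg).resolve_right hv
    intro i
    fin_cases i <;> assumption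
  have hfr : finrank ℝ V = 3 := by
    have := li.fintype_card_le_finrank
    simp only [Fintype.card_fin] at this
    omega
  let b := basisOfLinearIndependentOfCardEqFinrank li (by simp [hfr])
  have hb : ∀ w : V, ∃ s t1 t2 : ℝ, w = s • (x q - x p) + t1 • (a j1 - x p) + t2 • (a j2 - x p) := by
    intro w
    refine ⟨b.repr w 0, b.repr w 1, b.repr w 2, ?_⟩
    conv_lhs => rw [← b.sum_repr w]
    simp [b, Fin.sum_univ_three]
  have hzero : ∀ f : V →ₗ[ℝ] ℝ, f (x q - x p) = 0 → f (a j1 - x p) = 0 → f (a j2 - x p) = 0 →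
      f = 0 := by
    intro f h1 h2 h3
    ext w
    obtain ⟨s, t1, t2, rfl⟩ := hb w
    simp only [map_add, map_smul, h1, h2, h3, smul_zero, add_zero, LinearMap.zero_apply]
  have f2b1 : f2 (a j1 - x p) < 0 := by
    refine lt_of_le_of_ne (hle f2 f2p j1) fun hh => hf2 ?_
    exact hzero f2 (hv0 f2 f2p f2q) hh (heq f2 f2p j2 f2j2)
  have f1b2 : f1 (a j2 - x p) < 0 := hlt f1 f1p j2 f1j2
  have hcov : ∀ j ∈ J, Sup K f1 (a j) ∨ Sup K f2 (a j) := by
    intro j hj
    by_contra hcon
    push Not at hcon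
    obtain ⟨f3, hf3, f3p, f3q, f3j⟩ := hJ j hj
    obtain ⟨s, t1, t2, hst⟩ := hb (a j - x p)
    have e1 := hlt f1 f1p j hcon.1
    have e2 := hlt f2 f2p j hcon.2
    have e3 := heq f3 f3p j f3j
    rw [hst] at e1 e2 e3
    simp only [map_add, map_smul, smul_eq_mul, hv0 f1 f1p f1q, heq f1 f1p j1 f1j1, mul_zero,
      zero_add] at e1
    simp only [map_add, map_smul, smul_eq_mul, hv0 f2 f2p f2q, heq f2 f2p j2 f2j2, mul_zero,
      zero_add, add_zero] at e2
    simp only [map_add, map_smul, smul_eq_mul, hv0 f3 f3p f3q, mul_zero,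
      zero_add] at e3
    have ht2 : 0 < t2 := by
      by_contra hh
      push Not at hh
      have := mul_nonneg_of_nonpos_of_nonpos hh f1b2.le
      linarith
    have ht1 : 0 < t1 := by
      by_contra hh
      push Not at hh
      have := mul_nonneg_of_nonpos_of_nonpos hh f2b1.le
      linarith
    have l1 := hle f3 f3p j1
    have l2 := hle f3 f3p j2
    have m1 : t1 * f3 (a j1 - x p) ≤ 0 := mul_nonpos_of_nonneg_of_nonpos ht1.le l1
    have m2 : t2 * f3 (a j2 - x p) ≤ 0 := mul_nonpos_of_nonneg_of_nonpos ht2.le l2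
    have n1 : t1 * f3 (a j1 - x p) = 0 := by linarith
    have n2 : t2 * f3 (a j2 - x p) = 0 := by linarith
    exact hf3 (hzero f3 (hv0 f3 f3p f3q) ((mul_eq_zero.1 n1).resolve_left ht1.ne')
      ((mul_eq_zero.1 n2).resolve_left ht2.ne'))
  have hsub : J ⊆ J.filter (fun j => Sup K f1 (a j)) ∪ J.filter (fun j => Sup K f2 (a j)) := by
    intro j hj
    rcases hcov j hj with hh | hh
    · exact Finset.mem_union_left _ (Finset.mem_filter.2 ⟨hj, hh⟩)
    · exact Finset.mem_union_right _ (Finset.mem_filter.2 ⟨hj, hh⟩)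
  have c1 := h.symm.card_sup_le hV f1 hf1 (J.filter (fun j => Sup K f1 (a j)))
    (fun i hi => (Finset.mem_filter.1 hi).2)
  have c2 := h.symm.card_sup_le hV f2 hf2 (J.filter (fun j => Sup K f2 (a j)))
    (fun i hi => (Finset.mem_filter.1 hi).2)
  have := (Finset.card_le_card hsub).trans (Finset.card_union_le _ _)
  omega

/-- **A crown in 3-space has at most 77 indices.** -/
theorem Crown.card_le [FiniteDimensional ℝ V] (hV : finrank ℝ V ≤ 3) {K : Set V} {ι : Type*}
    [Fintype ι] [DecidableEq ι] {x a : ι → V} (h : Crown K x a) : Fintype.card ι ≤ 77 := by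
  classical
  by_contra hcon
  push Not at hcon
  rw [← Finset.card_univ] at hcon
  obtain ⟨T, -, hT3⟩ := Finset.exists_subset_card_eq (show 3 ≤ (Finset.univ : Finset ι).card by omega)
  let e : Fin 3 ≃ T := (T.equivFinOfCardEq hT3).symm
  let E : Fin 3 → ι := fun i => (e i : ι)
  have hE : Function.Injective E := Subtype.val_injective.comp e.injective
  let Jf : Fin 3 → Fin 3 → Finset ι := fun s t => Finset.univ.filter (fun j =>
    ∃ f : V →ₗ[ℝ] ℝ, f ≠ 0 ∧ Sup K f (x (E s)) ∧ Sup K f (x (E t)) ∧ Sup K f (a j))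
  have hJf : ∀ s t, s ≠ t → (Jf s t).card ≤ 24 := fun s t hst =>
    h.card_pair_le hV (E s) (E t) (hE.ne hst) _ (fun j hj => (Finset.mem_filter.1 hj).2)
  let B : Finset ι := T ∪ (Jf 0 1 ∪ (Jf 0 2 ∪ Jf 1 2))
  have hB : B.card ≤ 75 := by
    have h1 := Finset.card_union_le T (Jf 0 1 ∪ (Jf 0 2 ∪ Jf 1 2))
    have h2 := Finset.card_union_le (Jf 0 1) (Jf 0 2 ∪ Jf 1 2)
    have h3 := Finset.card_union_le (Jf 0 2) (Jf 1 2)
    have h4 := hJf 0 1 (by decide)
    have h5 := hJf 0 2 (by decide)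
    have h6 := hJf 1 2 (by decide)
    have h7 : B.card ≤ T.card + (Jf 0 1 ∪ (Jf 0 2 ∪ Jf 1 2)).card := h1
    omega
  have hR : 3 ≤ (Finset.univ \ B).card := by
    have := Finset.card_sdiff_add_card_eq_card (Finset.subset_univ B)
    omega
  obtain ⟨S, hS, hS3⟩ := Finset.exists_subset_card_eq hR
  let e' : Fin 3 ≃ S := (S.equivFinOfCardEq hS3).symm
  let P : Fin 3 → ι := fun i => (e' i : ι)
  have hP : Function.Injective P := Subtype.val_injective.comp e'.injective
  have hPB : ∀ j, P j ∉ B := fun j => (Finset.mem_sdiff.1 (hS (e' j).2)).2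
  have hPT : ∀ i j, E i ≠ P j := by
    intro i j hh
    apply hPB j
    rw [← hh]
    exact Finset.mem_union_left _ (e i).2
  have hkey : ∀ j, ∀ s t, s ≠ t → ∀ f : V →ₗ[ℝ] ℝ, f ≠ 0 → Sup K f (x (E s)) →
      Sup K f (x (E t)) → ¬ Sup K f (a (P j)) := by
    intro j s t hst f hf h1 h2 h3
    have hmem : ∀ s t, Sup K f (x (E s)) → Sup K f (x (E t)) → P j ∈ Jf s t := fun s t h1 h2 =>
      Finset.mem_filter.2 ⟨Finset.mem_univ _, f, hf, h1, h2, h3⟩
    apply hPB j
    simp only [B, Finset.mem_union]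
    right
    fin_cases s <;> fin_cases t
    · exact absurd rfl hst
    · exact Or.inl (hmem 0 1 h1 h2)
    · exact Or.inr (Or.inl (hmem 0 2 h1 h2))
    · exact Or.inl (hmem 0 1 h2 h1)
    · exact absurd rfl hst
    · exact Or.inr (Or.inr (hmem 1 2 h1 h2))
    · exact Or.inr (Or.inl (hmem 0 2 h2 h1))
    · exact Or.inr (Or.inr (hmem 1 2 h2 h1))
    · exact absurd rfl hst
  obtain ⟨g, hg, i, k, j, l, hik, hjl, h1, h2, h3, h4⟩ := six_points hV (K := K)
    (fun i => x (E i)) (fun j => a (P j)) (fun i => h.hx _) (fun j => h.ha _)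
    (h.inj.comp hE) (h.symm.inj.comp hP)
    (fun i j hh => by
      obtain ⟨k, hk⟩ : ∃ k : Fin 3, k ≠ i := exists_ne i
      obtain ⟨f, hf, h1, h2⟩ := h.sh (E k) (P j) (hPT k j)
      exact hkey j k i hk f hf h1 (by
        have hh' : x (E i) = a (P j) := hh
        rw [hh']; exact h2) h2)
    (fun i j => h.sh _ _ (hPT i j))
  exact hkey j i k hik g hg h1 h2 h3

end Pool.Agent.U327.Illum
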